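import Mathlib

set_option autoImplicit false

open Filter Topology
open scoped ENNReal

namespace Pool.Agent.Helper94.Aug

/-- The Hilbert space of square summable complex functions on `G`. -/
noncomputable abbrev H (G : Type*) := lp (fun _ : G => ℂ) 2

section Perm

variable {G : Type*}

theorem memlp_comp (σ : G ≃ G) {f : G → ℂ} (hf : Memℓp f 2) :
    Memℓp (fun t => f (σ t)) 2 := by
  have h2 : (0 : ℝ) < (2 : ℝ≥0∞).toReal := by norm_num
  rw [memℓp_gen_iff h2] at hf ⊢
  exact (σ.summable_iff (f := fun i => ‖f i‖ ^ (2 : ℝ≥0∞).toReal)).2 hf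

/-- Composition with a permutation of `G`, as a linear isometry of `ℓ²(G)`. -/
noncomputable def perm (σ : G ≃ G) : H G →ₗᵢ[ℂ] H G where
  toFun f := ⟨fun t => f (σ t), memlp_comp σ (lp.memℓp f)⟩
  map_add' f g := by ext t; simp
  map_smul' c f := by ext t; simp
  norm_map' f := by
    have h2 : (0 : ℝ) < (2 : ℝ≥0∞).toReal := by norm_num
    rw [lp.norm_eq_tsum_rpow h2, lp.norm_eq_tsum_rpow h2]
    congr 1
    exact σ.tsum_eq (fun i => ‖f i‖ ^ (2 : ℝ≥0∞).toReal)

@[simp] theorem perm_apply (σ : G ≃ G) (f : H G) (t : G) : perm σ f t = f (σ t) := rfl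

end Perm

variable {G : Type*} [Group G]

/-- Left translation. -/
noncomputable def L (h : G) : H G →L[ℂ] H G := (perm (Equiv.mulLeft h⁻¹)).toContinuousLinearMap

/-- Right translation. -/
noncomputable def R (s : G) : H G →L[ℂ] H G := (perm (Equiv.mulRight s)).toContinuousLinearMap

@[simp] theorem L_apply (h : G) (f : H G) (t : G) : L h f t = f (h⁻¹ * t) := rfl

@[simp] theorem R_apply (s : G) (f : H G) (t : G) : R s f t = f (t * s) := rfl

theorem norm_L (h : G) (f : H G) : ‖L h f‖ = ‖f‖ := (perm (Equiv.mulLeft h⁻¹)).norm_map f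

theorem norm_R (h : G) (f : H G) : ‖R h f‖ = ‖f‖ := (perm (Equiv.mulRight h)).norm_map f

theorem norm_L_le (h : G) : ‖L h‖ ≤ 1 :=
  ContinuousLinearMap.opNorm_le_bound _ zero_le_one (fun f => by rw [norm_L, one_mul])

/-- Left convolution by a summable function. -/
noncomputable def T (a : G → ℂ) : H G →L[ℂ] H G := ∑' h, a h • L h

theorem summable_T {a : G → ℂ} (ha : Summable fun g => ‖a g‖) :
    Summable (fun h => a h • L h) := by
  refine Summable.of_norm_bounded ha (fun h => ?_)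
  rw [norm_smul]
  calc ‖a h‖ * ‖L h‖ ≤ ‖a h‖ * 1 := by gcongr; exact norm_L_le h
    _ = ‖a h‖ := mul_one _

theorem hasSum_T_apply {a : G → ℂ} (ha : Summable fun g => ‖a g‖) (v : H G) (t : G) :
    HasSum (fun h => a h * v (h⁻¹ * t)) (T a v t) := by
  have h1 : HasSum (fun h => a h • L h) (T a) := (summable_T ha).hasSum
  have h2 := h1.mapL (ContinuousLinearMap.apply ℂ (H G) v)
  have h3 := h2.mapL (lp.evalCLM ℂ (fun _ : G => ℂ) 2 t)
  have h4 : ∀ w : H G, lp.evalCLM ℂ (fun _ : G => ℂ) 2 t w = w t := fun w => rfl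
  simp only [ContinuousLinearMap.apply_apply, map_smul, h4] at h3
  exact h3

theorem T_apply {a : G → ℂ} (ha : Summable fun g => ‖a g‖) (v : H G) (t : G) :
    T a v t = ∑' h, a h * v (h⁻¹ * t) := (hasSum_T_apply ha v t).tsum_eq.symm

theorem T_R {a : G → ℂ} (ha : Summable fun g => ‖a g‖) (s : G) (v : H G) :
    T a (R s v) = R s (T a v) := by
  ext t
  rw [R_apply, T_apply ha, T_apply ha]
  simp [mul_assoc]

theorem R_R (s t : G) (v : H G) : R s (R t v) = R (s * t) v := by
  ext u; simp [mul_assoc]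

theorem R_one (v : H G) : R 1 v = v := by
  ext u; simp

variable [DecidableEq G]

/-- The point mass at `s`. -/
noncomputable def δ (s : G) : H G := lp.single 2 s (1 : ℂ)

theorem δ_apply (s t : G) : δ s t = if t = s then 1 else 0 := by
  rw [δ, lp.single_apply]
  by_cases h : t = s
  · subst h; simp
  · simp [h]

theorem single_eq (t : G) (c : ℂ) : (lp.single 2 t c : H G) = c • δ t := by
  unfold δ
  rw [← lp.single_smul]
  simp

theorem R_δ (s t : G) : R s (δ t) = δ (t * s⁻¹) := by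
  ext u
  simp only [R_apply, δ_apply, eq_mul_inv_iff_mul_eq]

theorem L_δ (s t : G) : L s (δ t) = δ (s * t) := by
  ext u
  simp only [L_apply, δ_apply, inv_mul_eq_iff_eq_mul]

theorem ext_δ {A B : H G →L[ℂ] H G} (h : ∀ s, A (δ s) = B (δ s)) : A = B := by
  apply lp.ext_continuousLinearMap (by norm_num)
  intro i
  ext1
  simpa [δ] using h i

/-- An operator commutes with right translations. -/
def Comm (A : H G →L[ℂ] H G) : Prop := ∀ s v, A (R s v) = R s (A v)

omit [DecidableEq G] in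
theorem Comm.comp {A B : H G →L[ℂ] H G} (hA : Comm A) (hB : Comm B) : Comm (A * B) := by
  intro s v
  simp [hB s v, hA s (B v)]

theorem Comm.apply_δ {A : H G →L[ℂ] H G} (hA : Comm A) (s : G) : A (δ s) = R s⁻¹ (A (δ 1)) := by
  rw [← hA, R_δ]; simp

theorem hasSum_comp {A B : H G →L[ℂ] H G} (hA : Comm A) :
    HasSum (fun t => B (δ 1) t * A (δ 1) t⁻¹) (A (B (δ 1)) 1) := by
  have h1 : HasSum (fun t => lp.single 2 t (B (δ 1) t)) (B (δ 1)) :=
    lp.hasSum_single (by norm_num) _
  have h2 := h1.mapL A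
  have h3 := h2.mapL (lp.evalCLM ℂ (fun _ : G => ℂ) 2 1)
  have h5 : ∀ w : H G, lp.evalCLM ℂ (fun _ : G => ℂ) 2 1 w = w 1 := fun w => rfl
  have h6 : (fun t => B (δ 1) t * A (δ 1) t⁻¹) =
      fun b => lp.evalCLM ℂ (fun _ : G => ℂ) 2 1 (A (lp.single 2 b (B (δ 1) b))) := by
    funext t
    rw [single_eq, map_smul, map_smul, smul_eq_mul, hA.apply_δ t, h5]
    simp
  rw [h6]
  exact h3

theorem trace_comm {A B : H G →L[ℂ] H G} (hA : Comm A) (hB : Comm B) :
    A (B (δ 1)) 1 = B (A (δ 1)) 1 := by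
  have h1 := hasSum_comp (B := B) hA
  have h2 := hasSum_comp (B := A) hB
  have h3 : HasSum (fun t => B (δ 1) t⁻¹ * A (δ 1) t) (A (B (δ 1)) 1) := by
    have := (Equiv.inv G).hasSum_iff.2 h1
    simpa [Function.comp_def] using this
  have h4 : HasSum (fun t => B (δ 1) t⁻¹ * A (δ 1) t) (B (A (δ 1)) 1) := by
    simpa [mul_comm] using h2
  exact h3.unique h4

end Pool.Agent.Helper94.Aug
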