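import Pool.Agent.Helper94.Aug1

set_option autoImplicit false

open Filter Topology
open scoped ENNReal

namespace Pool.Agent.Helper94.Aug

variable {G : Type*} [Group G] [DecidableEq G]

omit [DecidableEq G] in
theorem inner_R (s : G) (v w : H G) : inner ℂ (R s v) w = inner ℂ v (R s⁻¹ w) := by
  have h : w = R s (R s⁻¹ w) := by rw [R_R]; simp [R_one]
  conv_lhs => rw [h]
  exact (perm (Equiv.mulRight s)).inner_map_map v (R s⁻¹ w)

theorem inner_δ (s : G) (v : H G) : inner ℂ (δ s) v = v s := by
  unfold δ
  rw [lp.inner_single_left]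
  simp

theorem idem_zero {F : H G →L[ℂ] H G} (hF : Comm F) (hi : ∀ v, F (F v) = F v)
    (h0 : F (δ 1) 1 = 0) : F = 0 := by
  let K : Submodule ℂ (H G) := (LinearMap.ker ((1 - F : H G →L[ℂ] H G) : H G →ₗ[ℂ] H G))
  have hmem : ∀ v, v ∈ K ↔ F v = v := by
    intro v
    simp only [K, LinearMap.mem_ker]
    constructor
    · intro h
      have : v - F v = 0 := by simpa using h
      exact (sub_eq_zero.1 this).symm
    · intro h
      simp [h]
  have hclosed : IsClosed (K : Set (H G)) := (1 - F).isClosed_ker
  haveI : CompleteSpace K := hclosed.completeSpace_coe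
  have hR : ∀ s, ∀ v ∈ K, R s v ∈ K := by
    intro s v hv
    rw [hmem] at hv ⊢
    rw [hF, hv]
  have hP : Comm K.starProjection := by
    intro s v
    apply Submodule.eq_starProjection_of_mem_of_inner_eq_zero
    · exact hR s _ (Submodule.starProjection_apply_mem _ _)
    · intro w hw
      rw [← map_sub, inner_R]
      exact Submodule.starProjection_inner_eq_zero _ _ (hR _ _ hw)
  have hPF : ∀ v, K.starProjection (F v) = F v := by
    intro v
    rw [Submodule.starProjection_eq_self_iff, hmem, hi]
  have hFP : ∀ v, F (K.starProjection v) = K.starProjection v := by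
    intro v
    rw [← hmem]
    exact Submodule.starProjection_apply_mem _ _
  have h1 := trace_comm hF hP
  rw [hPF, hFP, h0] at h1
  -- the projection has zero trace
  have h2 : K.starProjection (δ 1) = 0 := by
    have h3 := Submodule.re_inner_starProjection_eq_normSq K (δ 1)
    have h4 : inner ℂ (K.starProjection (δ 1)) (δ 1) = 0 := by
      rw [← inner_conj_symm, inner_δ, h1]; simp
    rw [h4] at h3
    have h5 : ‖K.orthogonalProjectionOnto (δ 1)‖ = 0 := by
      have : ‖K.orthogonalProjectionOnto (δ 1)‖ ^ 2 = 0 := by rw [← h3]; simp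
      exact pow_eq_zero_iff (two_ne_zero) |>.1 this
    rw [Submodule.starProjection_apply]
    rw [norm_eq_zero] at h5
    rw [h5]; rfl
  have h3 : F (δ 1) = 0 := by
    -- F (δ 1) = P (F δ) ; use all traces
    have hP0 : K.starProjection = 0 := by
      apply ext_δ
      intro s
      rw [hP.apply_δ, h2]; simp
    rw [← hPF, hP0]; simp
  apply ext_δ
  intro s
  rw [hF.apply_δ, h3]; simp

/-- Finiteness of the group von Neumann algebra. -/
theorem finite_vn {A B : H G →L[ℂ] H G} (hA : Comm A) (hB : Comm B)
    (h : ∀ v, A (B v) = v) : ∀ v, B (A v) = v := by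
  have hF : Comm (1 - B * A : H G →L[ℂ] H G) := by
    intro s v
    simp [hA s v, hB s (A v)]
  have h0 : (1 - B * A : H G →L[ℂ] H G) = 0 := by
    apply idem_zero hF
    · intro v
      simp [h]
    · have h1 := trace_comm hA hB
      rw [h] at h1
      simp [← h1]
  intro v
  have : (1 - B * A : H G →L[ℂ] H G) v = 0 := by rw [h0]; simp
  have h2 : v - B (A v) = 0 := by simpa using this
  exact (sub_eq_zero.1 h2).symm

end Pool.Agent.Helper94.Aug
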