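import Pool.Agent.Helper94.Aug2

set_option autoImplicit false

open Filter Topology
open scoped ENNReal

namespace Pool.Agent.Helper94.Aug

variable {G : Type*} [Group G]

/-- `ℓ¹` isoperimetric inequality for left translations by a finite family. -/
def Gap {ι : Type*} [Fintype ι] (s : ι → G) (C : ℝ) : Prop :=
  ∀ f : G → ℝ, (∀ t, 0 ≤ f t) → Summable f →
    ∑' t, f t ≤ C * ∑ i, ∑' t, |f ((s i)⁻¹ * t) - f t|

theorem hasSum_sq {G : Type*} (v : H G) : HasSum (fun t => ‖v t‖ ^ 2) (‖v‖ ^ 2) := by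
  have h := lp.hasSum_norm (p := 2) (by norm_num) v
  simpa using h

theorem gap_coercive {ι : Type*} [Fintype ι] {s : ι → G} {C : ℝ} (hC : 0 < C) (hs : Gap s C) :
    ∃ c : ℝ, 0 < c ∧ ∀ v : H G, c * ‖v‖ ^ 2 ≤ ∑ i, ‖L (s i) v - v‖ ^ 2 := by
  set r : ℝ := (Fintype.card ι : ℝ) + 1 with hr
  have hrpos : 0 < r := by positivity
  set ε : ℝ := 1 / (4 * C * r) with hε
  have hεpos : 0 < ε := by positivity
  refine ⟨ε / C, by positivity, fun v => ?_⟩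
  have h1 := hs (fun t => ‖v t‖ ^ 2) (fun t => by positivity) (hasSum_sq v).summable
  rw [(hasSum_sq v).tsum_eq] at h1
  have h2 : ∀ i, ∑' t, |‖v ((s i)⁻¹ * t)‖ ^ 2 - ‖v t‖ ^ 2| ≤
      1 / (2 * ε) * ‖L (s i) v - v‖ ^ 2 + 2 * ε * ‖v‖ ^ 2 := by
    intro i
    have hA := hasSum_sq (L (s i) v - v)
    have hB := hasSum_sq (L (s i) v)
    have hV := hasSum_sq v
    rw [norm_L] at hB
    have hsum : HasSum (fun t => 1 / (2 * ε) * ‖(L (s i) v - v) t‖ ^ 2 +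
        ε * (‖L (s i) v t‖ ^ 2 + ‖v t‖ ^ 2))
        (1 / (2 * ε) * ‖L (s i) v - v‖ ^ 2 + ε * (‖v‖ ^ 2 + ‖v‖ ^ 2)) :=
      (hA.mul_left _).add ((hB.add hV).mul_left _)
    have hpt : ∀ t, |‖v ((s i)⁻¹ * t)‖ ^ 2 - ‖v t‖ ^ 2| ≤
        1 / (2 * ε) * ‖(L (s i) v - v) t‖ ^ 2 + ε * (‖L (s i) v t‖ ^ 2 + ‖v t‖ ^ 2) := by
      intro t
      have e1 : (L (s i) v - v) t = v ((s i)⁻¹ * t) - v t := by simp
      rw [e1, L_apply]
      set x := v ((s i)⁻¹ * t)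
      set y := v t
      have h3 : |‖x‖ - ‖y‖| ≤ ‖x - y‖ := abs_norm_sub_norm_le x y
      have h4 : |‖x‖ ^ 2 - ‖y‖ ^ 2| = |‖x‖ - ‖y‖| * (‖x‖ + ‖y‖) := by
        rw [sq_sub_sq, abs_mul, abs_of_nonneg (by positivity : (0:ℝ) ≤ ‖x‖ + ‖y‖)]; ring
      rw [h4]
      have h5 : |‖x‖ - ‖y‖| * (‖x‖ + ‖y‖) ≤ ‖x - y‖ * (‖x‖ + ‖y‖) := by gcongr
      have h6 : ‖x - y‖ * (‖x‖ + ‖y‖) ≤ 1 / (2 * ε) * ‖x - y‖ ^ 2 + ε / 2 * (‖x‖ + ‖y‖) ^ 2 := by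
        have : 1 / (2 * ε) * ‖x - y‖ ^ 2 + ε / 2 * (‖x‖ + ‖y‖) ^ 2 - ‖x - y‖ * (‖x‖ + ‖y‖)
            = 1 / (2 * ε) * (‖x - y‖ - ε * (‖x‖ + ‖y‖)) ^ 2 := by
          field_simp
          ring
        have h7 : 0 ≤ 1 / (2 * ε) * (‖x - y‖ - ε * (‖x‖ + ‖y‖)) ^ 2 := by positivity
        linarith
      have h8 : ε / 2 * (‖x‖ + ‖y‖) ^ 2 ≤ ε * (‖x‖ ^ 2 + ‖y‖ ^ 2) := by
        nlinarith [sq_nonneg (‖x‖ - ‖y‖), hεpos]
      linarith
    have hsm : Summable (fun t => |‖v ((s i)⁻¹ * t)‖ ^ 2 - ‖v t‖ ^ 2|) :=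
      Summable.of_nonneg_of_le (fun t => abs_nonneg _) hpt hsum.summable
    have := hsm.tsum_le_tsum hpt hsum.summable
    rw [hsum.tsum_eq] at this
    linarith
  have h3 : ∑ i, ∑' t, |‖v ((s i)⁻¹ * t)‖ ^ 2 - ‖v t‖ ^ 2| ≤
      ∑ i : ι, (1 / (2 * ε) * ‖L (s i) v - v‖ ^ 2 + 2 * ε * ‖v‖ ^ 2) :=
    Finset.sum_le_sum (fun i _ => h2 i)
  rw [Finset.sum_add_distrib, ← Finset.mul_sum, Finset.sum_const, Finset.card_univ,
    nsmul_eq_mul] at h3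
  set SS := ∑ i, ‖L (s i) v - v‖ ^ 2 with hSS
  have h4 : ‖v‖ ^ 2 ≤ C * (1 / (2 * ε) * SS + (Fintype.card ι : ℝ) * (2 * ε * ‖v‖ ^ 2)) := by
    refine h1.trans ?_
    gcongr
  have h5 : C * ((Fintype.card ι : ℝ) * (2 * ε * ‖v‖ ^ 2)) ≤ 1 / 2 * ‖v‖ ^ 2 := by
    have h6 : C * ((Fintype.card ι : ℝ) * (2 * ε * ‖v‖ ^ 2)) =
      (2 * C * (Fintype.card ι : ℝ) * ε) * ‖v‖ ^ 2 := by ring
    rw [h6]
    gcongr
    rw [hε]
    rw [mul_one_div, div_le_iff₀ (by positivity)]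
    have : (Fintype.card ι : ℝ) ≤ r := by rw [hr]; linarith
    nlinarith
  have h7 : 1 / 2 * ‖v‖ ^ 2 ≤ C * (1 / (2 * ε)) * SS := by
    have : C * (1 / (2 * ε) * SS + (Fintype.card ι : ℝ) * (2 * ε * ‖v‖ ^ 2)) =
      C * (1 / (2 * ε)) * SS + C * ((Fintype.card ι : ℝ) * (2 * ε * ‖v‖ ^ 2)) := by ring
    rw [this] at h4
    linarith
  have h8 : ε / C * ‖v‖ ^ 2 = (2 * ε / C) * (1 / 2 * ‖v‖ ^ 2) := by ring
  rw [h8]
  calc (2 * ε / C) * (1 / 2 * ‖v‖ ^ 2) ≤ (2 * ε / C) * (C * (1 / (2 * ε)) * SS) := by gcongr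
    _ = SS := by field_simp

/-- The Laplacian-like operator. -/
noncomputable def D {ι : Type*} [Fintype ι] (s : ι → G) : H G →L[ℂ] H G := ∑ i, (1 - L (s i))

theorem D_apply {ι : Type*} [Fintype ι] (s : ι → G) (v : H G) :
    D s v = ∑ i, (v - L (s i) v) := by
  simp [D]

theorem re_inner_D {ι : Type*} [Fintype ι] (s : ι → G) (v : H G) :
    RCLike.re (inner ℂ v (D s v)) = 1 / 2 * ∑ i, ‖L (s i) v - v‖ ^ 2 := by
  rw [D_apply, inner_sum, map_sum, Finset.mul_sum]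
  refine Finset.sum_congr rfl (fun i _ => ?_)
  have h1 := norm_sub_sq (𝕜 := ℂ) (L (s i) v) v
  rw [norm_L] at h1
  rw [h1, inner_sub_right, map_sub, inner_self_eq_norm_sq, inner_re_symm]
  ring

theorem exists_inv {ι : Type*} [Fintype ι] {s : ι → G} {C : ℝ} (hC : 0 < C) (hs : Gap s C) :
    ∃ E : H G →L[ℂ] H G, (∀ v, D s (E v) = v) ∧ (∀ v, E (D s v) = v) := by
  obtain ⟨c, hc, hcv⟩ := gap_coercive hC hs
  set M : ℝ := ‖D s‖ + 1 with hM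
  have hMpos : 0 < M := by positivity
  have hDM : ∀ v, ‖D s v‖ ≤ M * ‖v‖ := by
    intro v
    calc ‖D s v‖ ≤ ‖D s‖ * ‖v‖ := (D s).le_opNorm v
      _ ≤ M * ‖v‖ := by gcongr; linarith
  set t : ℝ := c / (2 * M ^ 2) with ht
  have htpos : 0 < t := by positivity
  obtain ⟨z, hz⟩ : ∃ z : ℂ, z = (t : ℂ) := ⟨_, rfl⟩
  have hnorm : ‖(1 : H G →L[ℂ] H G) - z • D s‖ < 1 := by
    set q : ℝ := 1 - c ^ 2 / (4 * M ^ 2) with hq
    have hv : ∀ v, ‖((1 : H G →L[ℂ] H G) - z • D s) v‖ ^ 2 ≤ q * ‖v‖ ^ 2 := by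
      intro v
      have e : ((1 : H G →L[ℂ] H G) - z • D s) v = v - z • D s v := by simp
      rw [e]
      have h1 := norm_sub_sq (𝕜 := ℂ) v (z • D s v)
      rw [inner_smul_right, norm_smul] at h1
      have h2 : RCLike.re (z * inner ℂ v (D s v)) = t * RCLike.re (inner ℂ v (D s v)) := by
        rw [hz]; simp
      rw [h2, re_inner_D] at h1
      rw [h1]
      have h3 : ‖z‖ = t := by rw [hz]; simp [abs_of_pos htpos]
      rw [h3]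
      have h4 := hcv v
      have h5 := hDM v
      have h6 : (t * ‖D s v‖) ^ 2 ≤ t ^ 2 * M ^ 2 * ‖v‖ ^ 2 := by
        have : (t * ‖D s v‖) ^ 2 ≤ (t * (M * ‖v‖)) ^ 2 := by gcongr
        calc _ ≤ _ := this
          _ = _ := by ring
      have h7 : 2 * (t * (1 / 2 * ∑ i, ‖L (s i) v - v‖ ^ 2)) ≥ t * (c * ‖v‖ ^ 2) := by
        have : t * (c * ‖v‖ ^ 2) ≤ t * ∑ i, ‖L (s i) v - v‖ ^ 2 := by gcongr
        linarith
      have h8 : q = 1 - t * c + t ^ 2 * M ^ 2 := by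
        rw [hq, ht]
        field_simp
        ring
      rw [h8]
      nlinarith
    have hqlt : q < 1 := by
      rw [hq]
      have : 0 < c ^ 2 / (4 * M ^ 2) := by positivity
      linarith
    have hq0 : 0 ≤ max q 0 := le_max_right _ _
    have hb : ‖(1 : H G →L[ℂ] H G) - z • D s‖ ≤ Real.sqrt (max q 0) := by
      apply ContinuousLinearMap.opNorm_le_bound _ (Real.sqrt_nonneg _)
      intro v
      have h1 := hv v
      have h2 : ‖((1 : H G →L[ℂ] H G) - z • D s) v‖ ^ 2 ≤ (Real.sqrt (max q 0) * ‖v‖) ^ 2 := by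
        rw [mul_pow, Real.sq_sqrt hq0]
        refine h1.trans ?_
        gcongr
        exact le_max_left _ _
      exact (pow_le_pow_iff_left₀ (norm_nonneg _) (by positivity) two_ne_zero).1 h2
    refine hb.trans_lt ?_
    rw [Real.sqrt_lt' one_pos]
    simp [hqlt]
  have hu := isUnit_one_sub_of_norm_lt_one hnorm
  rw [sub_sub_cancel] at hu
  obtain ⟨u, hu⟩ := hu
  refine ⟨z • ((u⁻¹ : (H G →L[ℂ] H G)ˣ) : H G →L[ℂ] H G), ?_, ?_⟩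
  · intro v
    have h1 : (u : H G →L[ℂ] H G) * ((u⁻¹ : (H G →L[ℂ] H G)ˣ) : H G →L[ℂ] H G) = 1 := u.mul_inv
    have h2 : ((u : H G →L[ℂ] H G) * ((u⁻¹ : (H G →L[ℂ] H G)ˣ) : H G →L[ℂ] H G)) v = v := by
      rw [h1]; simp
    rw [hu] at h2
    simpa using h2
  · intro v
    have h1 : ((u⁻¹ : (H G →L[ℂ] H G)ˣ) : H G →L[ℂ] H G) * (u : H G →L[ℂ] H G) = 1 := u.inv_mul
    have h2 : (((u⁻¹ : (H G →L[ℂ] H G)ˣ) : H G →L[ℂ] H G) * (u : H G →L[ℂ] H G)) v = v := by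
      rw [h1]; simp
    rw [hu] at h2
    simpa using h2

theorem L_R (g s : G) (v : H G) : L g (R s v) = R s (L g v) := by
  ext t; simp [mul_assoc]

theorem D_R {ι : Type*} [Fintype ι] (s : ι → G) : Comm (D s) := by
  intro u v
  rw [D_apply, D_apply, map_sum]
  refine Finset.sum_congr rfl (fun i _ => ?_)
  rw [L_R, map_sub]

end Pool.Agent.Helper94.Aug
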