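import Pool.Agent.Helper94.Aug3

set_option autoImplicit false

open Filter Topology
open scoped ENNReal

namespace Pool.Agent.Helper94.Aug

variable {G : Type*} [Group G]

/-- A square summable function whose right gradient is summable is summable. -/
theorem summable_of_gap {ι : Type*} [Fintype ι] {s : ι → G} {C : ℝ} (hC : 0 < C) (hs : Gap s C)
    (k : H G) (y : ι → G → ℂ) (hy : ∀ i, Summable fun g => ‖y i g‖)
    (h : ∀ i t, k (t * (s i)⁻¹) - k t = y i t) : Summable (fun t => ‖k t‖) := by
  set M : ℝ := C * ∑ i, ∑' t, ‖y i t‖ with hM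
  -- the truncation
  have key : ∀ ε : ℝ, 0 < ε → Summable (fun t : G => max (‖k t⁻¹‖ - ε) 0) ∧
      ∑' t : G, max (‖k t⁻¹‖ - ε) 0 ≤ M := by
    intro ε hε
    have hfin : {t : G | ε ≤ ‖k t⁻¹‖}.Finite := by
      have h1 : Summable (fun t : G => ‖k t⁻¹‖ ^ 2) :=
        (Equiv.inv G).summable_iff.2 (hasSum_sq k).summable
      have h2 := h1.tendsto_cofinite_zero
      have h3 : ∀ᶠ t in cofinite, ‖k t⁻¹‖ ^ 2 < ε ^ 2 := h2.eventually (gt_mem_nhds (by positivity))
      rw [Filter.eventually_cofinite] at h3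
      refine h3.subset (fun t ht => ?_)
      simp only [Set.mem_ofPred_eq, not_lt] at ht ⊢
      gcongr
    have hsm : Summable (fun t : G => max (‖k t⁻¹‖ - ε) 0) := by
      apply summable_of_hasFiniteSupport
      refine hfin.subset (fun t ht => ?_)
      simp only [Function.mem_support, ne_eq, Set.mem_ofPred_eq] at ht ⊢
      by_contra hlt
      push Not at hlt
      exact ht (max_eq_right (by linarith))
    refine ⟨hsm, ?_⟩
    refine (hs _ (fun t => le_max_right _ _) hsm).trans ?_
    rw [hM]
    refine mul_le_mul_of_nonneg_left (Finset.sum_le_sum (fun i _ => ?_)) hC.le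
    -- change of variables
    let e : G ≃ G := (Equiv.inv G).trans (Equiv.mulRight (s i))
    have he : ∀ t, e t = t⁻¹ * s i := fun t => rfl
    have hsy : Summable (fun t => ‖y i (t⁻¹ * s i)‖) := (e.summable_iff (f := fun u => ‖y i u‖)).2 (hy i)
    have hty : ∑' t, ‖y i (t⁻¹ * s i)‖ = ∑' t, ‖y i t‖ := e.tsum_eq (fun u => ‖y i u‖)
    rw [← hty]
    have hle : ∀ t : G, |max (‖k ((s i)⁻¹ * t)⁻¹‖ - ε) 0 - max (‖k t⁻¹‖ - ε) 0| ≤
        ‖y i (t⁻¹ * s i)‖ := by
      intro t
      rw [← h i (t⁻¹ * s i)]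
      have e1 : ((s i)⁻¹ * t)⁻¹ = t⁻¹ * s i := by simp
      have e2 : t⁻¹ * s i * (s i)⁻¹ = t⁻¹ := by simp
      rw [e1, e2]
      have h1 := abs_max_sub_max_le_abs (‖k (t⁻¹ * s i)‖ - ε) (‖k t⁻¹‖ - ε) 0
      refine h1.trans ?_
      rw [sub_sub_sub_cancel_right, norm_sub_rev]
      exact abs_norm_sub_norm_le _ _
    refine Summable.tsum_le_tsum hle ?_ hsy
    exact Summable.of_nonneg_of_le (fun t => abs_nonneg _) hle hsy
  have hinv : Summable (fun t : G => ‖k t⁻¹‖) := by
    refine summable_of_sum_le (c := M) (fun t => norm_nonneg _) (fun u => ?_)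
    refine le_of_forall_pos_le_add (fun η hη => ?_)
    set ε : ℝ := η / ((u.card : ℝ) + 1) with hε
    have hεpos : 0 < ε := by positivity
    obtain ⟨hsm, hle⟩ := key ε hεpos
    calc ∑ t ∈ u, ‖k t⁻¹‖ ≤ ∑ t ∈ u, (max (‖k t⁻¹‖ - ε) 0 + ε) := by
          refine Finset.sum_le_sum (fun t _ => ?_)
          have := le_max_left (‖k t⁻¹‖ - ε) 0
          linarith
      _ = ∑ t ∈ u, max (‖k t⁻¹‖ - ε) 0 + u.card * ε := by
          rw [Finset.sum_add_distrib, Finset.sum_const, nsmul_eq_mul]
      _ ≤ M + η := by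
          have h1 : ∑ t ∈ u, max (‖k t⁻¹‖ - ε) 0 ≤ M :=
            (hsm.sum_le_tsum u (fun t _ => le_max_right _ _)).trans hle
          have h2 : (u.card : ℝ) * ε ≤ η := by
            rw [hε, mul_div_assoc', div_le_iff₀ (by positivity)]
            nlinarith
          linarith
  have := (Equiv.inv G).summable_iff (f := fun t : G => ‖k t⁻¹‖)
  have h2 := this.2 hinv
  simpa [Function.comp_def] using h2

/-- If `a` and `k` are summable and `a` has zero sum, then so does the convolution. -/
theorem tsum_conv {a k : G → ℂ} (ha : Summable fun g => ‖a g‖) (hk : Summable fun g => ‖k g‖)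
    (ha0 : ∑' g, a g = 0) : ∑' t, ∑' h, a h * k (h⁻¹ * t) = 0 := by
  let e : G × G ≃ G × G :=
    { toFun := fun p => (p.2, p.2⁻¹ * p.1)
      invFun := fun p => (p.1 * p.2, p.1)
      left_inv := fun p => by simp
      right_inv := fun p => by simp }
  have h1 : Summable (fun p : G × G => a p.1 * k p.2) := summable_mul_of_summable_norm ha hk
  have h2 : Summable (fun p : G × G => a p.2 * k (p.2⁻¹ * p.1)) :=
    (e.summable_iff (f := fun p : G × G => a p.1 * k p.2)).2 h1
  have h3 := h2.tsum_prod
  have h4 : ∑' p : G × G, a p.2 * k (p.2⁻¹ * p.1) = ∑' p : G × G, a p.1 * k p.2 :=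
    e.tsum_eq (fun p : G × G => a p.1 * k p.2)
  have h5 := tsum_mul_tsum_of_summable_norm ha hk
  rw [← h3, h4, ← h5, ha0, zero_mul]

/-- In a group with the isoperimetric inequality for a finite family `s`, the elements
`δ (s i) - δ 1` have no common left factor in the augmentation ideal. -/
theorem no_common_factor {ι : Type*} [Fintype ι] [DecidableEq G] {s : ι → G} {C : ℝ} (hC : 0 < C)
    (hs : Gap s C)
    {a : G → ℂ} (ha : Summable fun g => ‖a g‖) (ha0 : ∑' g, a g = 0)
    {y : ι → G → ℂ} (hy : ∀ i, Summable fun g => ‖y i g‖)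
    (h : ∀ i g, (∑' h, a h * y i (h⁻¹ * g)) = (if g = s i then 1 else 0) - (if g = 1 then 1 else 0)) :
    False := by
  obtain ⟨E, hE1, hE2⟩ := exists_inv hC hs
  have hE : Comm E := by
    intro u v
    have h1 : R u v = D s (R u (E v)) := by rw [D_R, hE1]
    rw [h1, hE2]
  have hmem : ∀ i, Memℓp (y i) 2 := by
    intro i
    have h1 : Memℓp (y i) 1 := by
      rw [memℓp_gen_iff (by norm_num)]
      simpa using hy i
    exact h1.of_exponent_ge (by norm_num)
  let η : ι → H G := fun i => ⟨y i, hmem i⟩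
  have hη : ∀ i t, η i t = y i t := fun i t => rfl
  have hTη : ∀ i, T a (η i) = δ (s i) - δ 1 := by
    intro i
    ext t
    rw [T_apply ha]
    simp only [hη]
    rw [h]
    simp [δ_apply]
  have hTy : ∀ i, T (y i) (δ 1) = η i := by
    intro i
    ext t
    rw [T_apply (hy i), hη]
    rw [tsum_eq_single t]
    · simp [δ_apply]
    · intro h' hh'
      have : h'⁻¹ * t ≠ 1 := by
        intro h2
        apply hh'
        rw [inv_mul_eq_one] at h2
        exact h2
      simp [δ_apply, this]
  have hcomm : ∀ i, Comm (T (y i)) := fun i s v => T_R (hy i) s v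
  have hcomma : Comm (T a) := fun s v => T_R ha s v
  have hTT : ∀ i v, T a (T (y i) v) = L (s i) v - v := by
    intro i v
    have h1 : T a * T (y i) = L (s i) - 1 := by
      apply ext_δ
      intro u
      have : (T a * T (y i)) (δ u) = T a (T (y i) (δ u)) := rfl
      rw [this, (hcomm i).apply_δ, hTy, hcomma, hTη, map_sub, R_δ, R_δ]
      simp [L_δ]
    have h2 : (T a * T (y i)) v = (L (s i) - 1) v := by rw [h1]
    simpa using h2
  let S : H G →L[ℂ] H G := -((∑ i, T (y i)) * E)
  have hSapp : ∀ v, S v = -∑ i, T (y i) (E v) := by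
    intro v
    simp [S]
  have hS : Comm S := by
    intro u v
    rw [hSapp, hSapp, map_neg, map_sum]
    congr 1
    refine Finset.sum_congr rfl (fun i _ => ?_)
    rw [hE, hcomm i]
  have hTS : ∀ v, T a (S v) = v := by
    intro v
    rw [hSapp, map_neg, map_sum]
    simp only [hTT]
    conv_rhs => rw [← hE1 v, D_apply]
    rw [← Finset.sum_neg_distrib]
    simp
  have hST := finite_vn hcomma hS hTS
  set k : H G := S (δ 1) with hk
  have hTk : T a k = δ 1 := hTS _
  have hgrad : ∀ i, R (s i)⁻¹ k - k = η i := by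
    intro i
    have h1 : T a (R (s i)⁻¹ k - k) = T a (η i) := by
      rw [map_sub, hcomma, hTk, hTη, R_δ]
      simp
    rw [← hST (R (s i)⁻¹ k - k), h1, hST]
  have hksum : Summable (fun t => ‖k t‖) := by
    apply summable_of_gap hC hs k y hy
    intro i t
    have h1 : (R (s i)⁻¹ k - k) t = η i t := by rw [hgrad]
    simpa [hη] using h1
  have h0 := tsum_conv ha hksum ha0
  have h1 : ∀ t, ∑' h, a h * k (h⁻¹ * t) = if t = 1 then 1 else 0 := by
    intro t
    rw [← T_apply ha, hTk, δ_apply]
  simp only [h1] at h0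
  rw [tsum_ite_eq] at h0
  exact one_ne_zero h0

section Free

/-- Ping-pong gives the isoperimetric inequality. -/
theorem pingpong_gap {ι : Type*} [Fintype ι] (s : ι → G) (P N : ι → Set G)
    (hPN : ∀ i u, u ∉ N i → s i * u ∈ P i)
    (hdisj : ∀ t : G, ∀ f : ℝ, 0 ≤ f →
      ∑ i, ((N i).indicator (fun _ => f) t + (P i).indicator (fun _ => f) t) ≤ f)
    (hcard : 2 ≤ Fintype.card ι) : Gap s 1 := by
  classical
  intro f hf hsum
  rw [one_mul]
  have hstep : ∀ i, ∑' t, f t ≤ ∑' t, (N i).indicator f t + ∑' t, (P i).indicator f t +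
      ∑' t, |f ((s i)⁻¹ * t) - f t| := by
    intro i
    let e : G ≃ G := Equiv.mulLeft (s i)⁻¹
    have he : ∀ t, e t = (s i)⁻¹ * t := fun t => rfl
    have hsN : Summable (fun t => (N i).indicator f t) := hsum.indicator _
    have hsP : Summable (fun t => (P i).indicator f t) := hsum.indicator _
    have hse : Summable (fun t => f ((s i)⁻¹ * t)) := (e.summable_iff (f := f)).2 hsum
    have hsNe : Summable (fun t => (N i).indicator f ((s i)⁻¹ * t)) :=
      (e.summable_iff (f := (N i).indicator f)).2 hsN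
    have hsabs : Summable (fun t => |f ((s i)⁻¹ * t) - f t|) := (hse.sub hsum).abs
    have h1 : ∑' t, f t = ∑' t, f ((s i)⁻¹ * t) := (e.tsum_eq f).symm
    have h2 : ∑' t, (N i).indicator f t = ∑' t, (N i).indicator f ((s i)⁻¹ * t) :=
      (e.tsum_eq ((N i).indicator f)).symm
    rw [h1, h2, ← hsNe.tsum_add hsP, ← (hsNe.add hsP).tsum_add hsabs]
    refine Summable.tsum_le_tsum (fun t => ?_) hse ((hsNe.add hsP).add hsabs)
    by_cases hN : (s i)⁻¹ * t ∈ N i
    · rw [Set.indicator_of_mem hN]
      have h3 : 0 ≤ (P i).indicator f t := Set.indicator_nonneg (fun x _ => hf x) t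
      have h4 := abs_nonneg (f ((s i)⁻¹ * t) - f t)
      linarith
    · have hP : t ∈ P i := by
        have := hPN i _ hN
        simpa using this
      rw [Set.indicator_of_mem hP, Set.indicator_of_notMem hN]
      have h4 := le_abs_self (f ((s i)⁻¹ * t) - f t)
      linarith
  have hsumle : ∑ i, (∑' t, (N i).indicator f t + ∑' t, (P i).indicator f t) ≤ ∑' t, f t := by
    have h1 : ∀ i, ∑' t, (N i).indicator f t + ∑' t, (P i).indicator f t =
        ∑' t, ((N i).indicator f t + (P i).indicator f t) := by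
      intro i
      rw [(hsum.indicator _).tsum_add (hsum.indicator _)]
    simp only [h1]
    rw [← Summable.tsum_finsetSum (fun i _ => (hsum.indicator _).add (hsum.indicator _))]
    refine Summable.tsum_le_tsum (fun t => ?_) ?_ hsum
    · have h2 := hdisj t (f t) (hf t)
      refine le_trans (le_of_eq ?_) h2
      refine Finset.sum_congr rfl (fun i _ => ?_)
      simp [Set.indicator_apply]
    · exact summable_sum (fun i _ => (hsum.indicator _).add (hsum.indicator _))
  have hall : ∑ i : ι, ∑' t, f t ≤ ∑ i, (∑' t, (N i).indicator f t + ∑' t, (P i).indicator f t +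
      ∑' t, |f ((s i)⁻¹ * t) - f t|) := Finset.sum_le_sum (fun i _ => hstep i)
  rw [Finset.sum_add_distrib, Finset.sum_const, Finset.card_univ, nsmul_eq_mul] at hall
  have hf0 : 0 ≤ ∑' t, f t := tsum_nonneg hf
  have h2 : (2 : ℝ) ≤ (Fintype.card ι : ℝ) := by exact_mod_cast hcard
  nlinarith

theorem free_gap : Gap (fun i : Bool => FreeGroup.of (if i then 1 else 0 : ℕ)) 1 := by
  apply pingpong_gap _ (fun i : Bool => FreeGroup.startsWith ((if i then 1 else 0 : ℕ), true))
    (fun i : Bool => FreeGroup.startsWith ((if i then 1 else 0 : ℕ), false))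
  · intro i u hu
    exact FreeGroup.startsWith_mk_mul (w := ((if i then 1 else 0 : ℕ), true)) u hu
  · intro t f hf
    simp only [Fintype.sum_bool, if_true, Bool.false_eq_true, if_false, Set.indicator_apply,
      FreeGroup.startsWith, Set.mem_ofPred_eq]
    rcases h : (FreeGroup.toWord t)[0]? with _ | ⟨n, b⟩
    · simpa using hf
    · simp only [Option.some.injEq, Prod.mk.injEq]
      rcases b with _ | _ <;> by_cases h0 : n = 0 <;> by_cases h1 : n = 1 <;> simp [h0, h1, hf]
  · simp

end Free

end Pool.Agent.Helper94.Aug
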