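import Pool.Agent.Helper94.FBSpace

/-! The sequential space on finite words is Fréchet–Urysohn and has large π-character. -/

set_option autoImplicit false
open Filter Cardinal Set Topology

namespace Pool.Agent.Helper94.FrechetB

theorem not_hit_self (f : ℕ → ℕ) (s : List ℕ) : ¬ Hit f s s := by
  rintro ⟨v, h1, h2⟩
  have h3 := h1.length_le
  have h4 := h2.length_le
  simp at h4
  omega

theorem conv_const {J : Type} (f : J → ℕ → ℕ) (s : List ℕ) : Conv f (fun _ => s) s := by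
  refine ⟨Eventually.of_forall fun _ => List.suffix_refl _, fun n => Eventually.of_forall fun _ h => ?_,
    fun a => Eventually.of_forall fun _ => not_hit_self _ _⟩
  have := h.length_le
  simp at this

theorem conv_child {J : Type} (f : J → ℕ → ℕ) (s : List ℕ) : Conv f (fun n => n :: s) s := by
  refine ⟨Eventually.of_forall fun j => List.suffix_cons j s, fun n => ?_, fun a => ?_⟩
  · filter_upwards [eventually_gt_atTop n] with j hj h
    have := h.eq_of_length (by simp)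
    simp only [List.cons.injEq] at this
    omega
  · filter_upwards [eventually_gt_atTop (f a (code s))] with j hj h
    obtain ⟨v, h1, h2⟩ := h
    have h3 := h1.length_le
    have h4 := h2.length_le
    simp only [List.length_cons] at h4
    have hv : s = v := h1.eq_of_length (by omega)
    subst hv
    have := h2.eq_of_length (by simp)
    simp only [List.cons.injEq] at this
    omega

theorem hit_split {f : ℕ → ℕ} {s y t : List ℕ} (hyt : y <:+ t) (h : Hit f s t) :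
    Hit f s y ∨ Hit f y t := by
  obtain ⟨v, h1, h2⟩ := h
  rcases suffix_cmp h2 hyt with h3 | h3
  · exact Or.inl ⟨v, h1, h3⟩
  · rcases List.suffix_cons_iff.1 h3 with h4 | h4
    · exact Or.inl ⟨v, h1, by rw [h4]⟩
    · exact Or.inr ⟨v, h4, h2⟩

section

variable {f : I → ℕ → ℕ}

theorem unb (h1 : ∀ a, StrictMono (f a)) (h2 : ∀ a b, a ≤ b → ∀ᶠ n in atTop, f a n ≤ f b n)
    (h3 : ∀ g : ℕ → ℕ, ∃ a, ∃ᶠ n in atTop, g n < f a n) {P : ℕ → ℕ} (hP : StrictMono P)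
    (c : I) (H : ℕ → ℕ) : ∃ c', c ≤ c' ∧ ∃ᶠ n in atTop, H n < f c' (P n) := by
  obtain ⟨a, ha⟩ := h3 H
  refine ⟨max a c, le_max_right _ _, ?_⟩
  refine (ha.and_eventually (h2 a (max a c) (le_max_left _ _))).mono fun n hn => ?_
  exact hn.1.trans_le (hn.2.trans ((h1 _).monotone hP.le_apply))

theorem exists_bound (h2 : ∀ a b, a ≤ b → ∀ᶠ n in atTop, f a n ≤ f b n)
    (h3 : ∀ g : ℕ → ℕ, ∃ a, ∃ᶠ n in atTop, g n < f a n) (c : ℕ → I) :
    ∃ d, ∀ k, c k ≤ d := by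
  by_contra hcon
  push Not at hcon
  obtain ⟨g, hg⟩ := bounded_seq (fun k => f (c k))
  obtain ⟨a, ha⟩ := h3 g
  obtain ⟨k, hk⟩ := hcon a
  obtain ⟨n, hn⟩ := (ha.and_eventually ((h2 a (c k) hk.le).and (hg k))).exists
  omega

theorem unb' (h1 : ∀ a, StrictMono (f a)) (h2 : ∀ a b, a ≤ b → ∀ᶠ n in atTop, f a n ≤ f b n)
    (h3 : ∀ g : ℕ → ℕ, ∃ a, ∃ᶠ n in atTop, g n < f a n) {P : ℕ → ℕ}
    (hP : Tendsto P atTop atTop) (c : I) (H : ℕ → ℕ) :
    ∃ c', c ≤ c' ∧ ∃ᶠ n in atTop, H n < f c' (P n) := by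
  obtain ⟨φ, hφ, hφ2⟩ := strictMono_subseq_of_tendsto_atTop hP
  obtain ⟨c', hc', hf⟩ := unb h1 h2 h3 hφ2 c (fun n => H (φ n))
  exact ⟨c', hc', hφ.tendsto_atTop.frequently hf⟩

/-- The diagonal argument. `R a c n` means that `a` hits the `n`-th member of the sequence number
`c`; `M c n` is a lower bound of the codes of its relevant nodes and `H c n` bounds its letters. -/
theorem core (h1 : ∀ a, StrictMono (f a)) (h2 : ∀ a b, a ≤ b → ∀ᶠ n in atTop, f a n ≤ f b n)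
    (h3 : ∀ g : ℕ → ℕ, ∃ a, ∃ᶠ n in atTop, g n < f a n)
    {M H : I → ℕ → ℕ} {R : I → I → ℕ → Prop} (hM : ∀ c, Tendsto (M c) atTop atTop)
    (hR : ∀ c, ∀ a < c, ∀ᶠ n in atTop, ¬ R a c n)
    (hH : ∀ a c n, H c n < f a (M c n) → ¬ R a c n) :
    ∃ (c : ℕ → I) (n : ℕ → ℕ), (∀ k, k ≤ n k) ∧ (∀ k, k ≤ M (c k) (n k)) ∧
      (∀ a, ∀ᶠ k in atTop, ¬ R a (c k) (n k)) := by
  classical
  have hnext : ∀ c : I, ∃ c', c ≤ c' ∧ ∃ᶠ n in atTop, H c n < f c' (M c n) := fun c =>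
    unb' h1 h2 h3 (hM c) c (H c)
  choose nx hnx1 hnx2 using hnext
  obtain ⟨c0, -⟩ := h3 fun _ => 0
  let c : ℕ → I := fun k => nx^[k] c0
  have hc : ∀ k, c (k + 1) = nx (c k) := fun k => Function.iterate_succ_apply' nx k c0
  have hcm : Monotone c := monotone_nat_of_le_succ fun k => by rw [hc]; exact hnx1 _
  -- the supremum
  have hne : {d : I | ∀ k, c k ≤ d}.Nonempty := exists_bound h2 h3 c
  let w : I := (wellFounded_lt (α := I)).min _ hne
  have hw1 : ∀ k, c k ≤ w := (wellFounded_lt (α := I)).min_mem _ hne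
  have hw2 : ∀ a < w, ∃ k, a < c k := by
    intro a ha
    by_contra hcon
    push Not at hcon
    exact (wellFounded_lt (α := I)).not_lt_min (s := {d : I | ∀ k, c k ≤ d}) hcon ha
  -- thresholds for the final diagonal
  let e : I → ℕ → ℕ := fun a k =>
    if h : ∃ N, ∀ n ≥ N, ¬ R a (c k) n then h.choose else 0
  obtain ⟨F, hF⟩ := bounded_of_lt (fun a : Iio w => e a.1) (mk_Iio_lt w)
  have hex : ∀ k, ∃ n, H (c k) n < f (c (k + 1)) (M (c k) n) ∧ F k ≤ n ∧ k ≤ n ∧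
      k ≤ M (c k) n ∧ f (c (k + 1)) (M (c k) n) ≤ f w (M (c k) n) := by
    intro k
    have h4 := hnx2 (c k)
    rw [← hc] at h4
    exact (h4.and_eventually ((eventually_ge_atTop (F k)).and ((eventually_ge_atTop k).and
      (((hM (c k)).eventually_ge_atTop k).and
        ((hM (c k)).eventually (h2 _ _ (hw1 (k + 1)))))))).exists
  choose n hn1 hn2 hn3 hn4 hn5 using hex
  have hMt : Tendsto (fun k => M (c k) (n k)) atTop atTop := tendsto_atTop_mono hn4 tendsto_id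
  refine ⟨c, n, hn3, hn4, fun a => ?_⟩
  rcases lt_or_ge a w with ha | ha
  · obtain ⟨k0, hk0⟩ := hw2 a ha
    filter_upwards [hF ⟨a, ha⟩, eventually_ge_atTop k0] with k hk hk2
    have hk3 : a < c k := hk0.trans_le (hcm hk2)
    have hex : ∃ N, ∀ n ≥ N, ¬ R a (c k) n := eventually_atTop.1 (hR (c k) a hk3)
    have he : e a k = hex.choose := dif_pos hex
    apply hex.choose_spec
    rw [ge_iff_le, ← he]
    exact hk.trans (hn2 k)
  · filter_upwards [hMt.eventually (h2 w a ha)] with k hk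
    exact hH _ _ _ ((hn1 k).trans_le ((hn5 k).trans hk))

theorem diag' (h1 : ∀ a, StrictMono (f a)) (h2 : ∀ a b, a ≤ b → ∀ᶠ n in atTop, f a n ≤ f b n)
    (h3 : ∀ g : ℕ → ℕ, ∃ a, ∃ᶠ n in atTop, g n < f a n) {s : List ℕ} {y : ℕ → List ℕ}
    (hy : Conv f y s) (hys : ∀ n, y n ≠ s) (hP : Tendsto (fun n => code (y n)) atTop atTop)
    {S : ℕ → ℕ → List ℕ} (hS : ∀ n, Conv f (S n) (y n)) :
    ∃ (n j : ℕ → ℕ), Conv f (fun k => S (n k) (j k)) s := by
  -- thresholds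
  have hE : ∀ (a : I) (n : ℕ), ∃ N, ∀ j ≥ N, ¬ Hit (f a) (y n) (S n j) := fun a n =>
    eventually_atTop.1 ((hS n).2.2 a)
  choose E hE using hE
  have hT : ∀ n : ℕ, ∃ N, ∀ j ≥ N, y n <:+ S n j := fun n => eventually_atTop.1 (hS n).1
  choose T hT using hT
  have hG : ∀ c : I, ∃ g : ℕ → ℕ, (∀ a < c, ∀ᶠ n in atTop, ¬ Hit (f a) (y n) (S n (g n))) ∧
      ∀ n, y n <:+ S n (g n) := by
    intro c
    obtain ⟨g, hg⟩ := bounded_of_lt (fun a : Iio c => E a.1) (mk_Iio_lt c)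
    refine ⟨fun n => max (g n) (T n), fun a ha => ?_, fun n => hT n _ (le_max_right _ _)⟩
    filter_upwards [hg ⟨a, ha⟩] with n hn
    exact hE a n _ (hn.trans (le_max_left _ _))
  choose G hG1 hG2 using hG
  obtain ⟨c, n, hn1, hn2, hn3⟩ := core (M := fun _ n => code (y n))
    (H := fun c n => code (S n (G c n))) (R := fun a c n => Hit (f a) (y n) (S n (G c n)))
    h1 h2 h3 (fun _ => hP) hG1 (by
      rintro a c n h ⟨v, hv1, hv2⟩
      have h6 : f a (code v) ≤ code (S n (G c n)) := (le_code_cons _ _).trans (code_mono hv2)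
      have h7 : f a (code (y n)) ≤ f a (code v) := (h1 a).monotone (code_mono hv1)
      omega)
  have hnt : Tendsto n atTop atTop := tendsto_atTop_mono hn1 tendsto_id
  refine ⟨n, fun k => G (c k) (n k), ?_, fun m => ?_, fun a => ?_⟩
  · filter_upwards [hnt.eventually hy.1] with k hk
    exact hk.trans (hG2 _ _)
  · filter_upwards [hnt.eventually hy.1, hnt.eventually (hy.2.1 m)] with k hk hk2 hcon
    apply hk2
    rcases suffix_cmp hcon (hG2 (c k) (n k)) with h | h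
    · exact h
    · rcases List.suffix_cons_iff.1 h with h4 | h4
      · rw [h4]
      · exact absurd (h4.eq_of_length (le_antisymm h4.length_le hk.length_le)) (hys _)
  · filter_upwards [hnt.eventually (hy.2.2 a), hn3 a] with k hk hk2 hcon
    rcases hit_split (hG2 (c k) (n k)) hcon with h | h
    · exact hk h
    · exact hk2 h

theorem diag (h1 : ∀ a, StrictMono (f a)) (h2 : ∀ a b, a ≤ b → ∀ᶠ n in atTop, f a n ≤ f b n)
    (h3 : ∀ g : ℕ → ℕ, ∃ a, ∃ᶠ n in atTop, g n < f a n) {s : List ℕ} {y : ℕ → List ℕ}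
    (hy : Conv f y s)
    {S : ℕ → ℕ → List ℕ} (hS : ∀ n, Conv f (S n) (y n)) :
    ∃ (n j : ℕ → ℕ), Conv f (fun k => S (n k) (j k)) s := by
  by_cases hex : ∃ n, y n = s
  · obtain ⟨n, hn⟩ := hex
    refine ⟨fun _ => n, fun j => j, ?_⟩
    have := hS n
    rwa [hn] at this
  · push Not at hex
    have ht : Tendsto (fun n => code (y n)) atTop atTop := by
      rw [tendsto_atTop]
      intro N
      have h4 : ∀ᶠ n in atTop, ∀ m ∈ Finset.range N, ¬ (m :: s) <:+ y n :=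
        (Filter.eventually_all_finset _).2 fun m _ => hy.2.1 m
      filter_upwards [h4, hy.1] with n hn hsn
      obtain ⟨m, hm⟩ := exists_cons_suffix hsn (Ne.symm (hex n))
      have : N ≤ m := by
        by_contra hlt
        exact hn m (Finset.mem_range.2 (by omega)) hm
      exact this.trans ((le_code_cons _ _).trans (code_mono hm))
    exact diag' h1 h2 h3 hy hex ht hS

theorem tendsto_of_conv {J : Type} {f : J → ℕ → ℕ} {u : ℕ → List ℕ} {s : List ℕ}
    (h : Conv f u s) : Tendsto u atTop (@nhds _ (seqTop f) s) := by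
  let _ := seqTop f
  rw [tendsto_atTop_nhds]
  intro U hs hU
  exact eventually_atTop.1 (isOpen_seqTop_iff.1 hU s hs u h)

theorem frechet (h1 : ∀ a, StrictMono (f a)) (h2 : ∀ a b, a ≤ b → ∀ᶠ n in atTop, f a n ≤ f b n)
    (h3 : ∀ g : ℕ → ℕ, ∃ a, ∃ᶠ n in atTop, g n < f a n) :
    @FrechetUrysohnSpace _ (seqTop f) := by
  let _ := seqTop f
  refine ⟨fun A x hx => ?_⟩
  let C : Set (List ℕ) := {s | ∃ u : ℕ → List ℕ, (∀ k, u k ∈ A) ∧ Conv f u s}
  have hAC : A ⊆ C := fun s hs => ⟨fun _ => s, fun _ => hs, conv_const f s⟩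
  have hC : IsClosed C := by
    refine ⟨?_⟩
    rw [isOpen_seqTop_iff]
    intro s hs u hu
    by_contra hcon
    have hfr : ∃ᶠ j in atTop, u j ∈ C := by
      intro h
      exact hcon (h.mono fun j hj => hj)
    obtain ⟨φ, hφ, hφ2⟩ := extraction_of_frequently_atTop hfr
    choose S hSA hSc using hφ2
    obtain ⟨n, j, hc⟩ := diag h1 h2 h3 (hu.comp hφ.tendsto_atTop) hSc
    exact hs ⟨_, fun k => hSA _ _, hc⟩
  obtain ⟨u, hu, hc⟩ := closure_minimal hAC hC hx
  exact ⟨u, hu, tendsto_of_conv hc⟩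

end

theorem isOpen_avoid {J : Type} (f : J → ℕ → ℕ) (a : J) (s : List ℕ) :
    IsOpen[seqTop f] {t | s <:+ t ∧ ¬ Hit (f a) s t} := by
  rw [isOpen_seqTop_iff]
  intro t ht u hu
  filter_upwards [hu.1, hu.2.2 a] with j hj1 hj2
  refine ⟨ht.1.trans hj1, fun hcon => ?_⟩
  rcases hit_split hj1 hcon with h | h
  · exact ht.2 h
  · exact hj2 h

theorem pi_char {f : I → ℕ → ℕ} (h1 : ∀ a, StrictMono (f a))
    (h3 : ∀ g : ℕ → ℕ, ∃ a, ∃ᶠ n in atTop, g n < f a n) (s : List ℕ)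
    (P : Set (Set (List ℕ))) (hP : ∀ p ∈ P, IsOpen[seqTop f] p ∧ p.Nonempty)
    (hP2 : ∀ U, IsOpen[seqTop f] U → s ∈ U → ∃ p ∈ P, p ⊆ U) :
    bnum ≤ Cardinal.mk P := by
  by_contra hlt
  rw [not_le] at hlt
  have hh : ∀ p : P, ∃ (t : List ℕ) (h : List ℕ → ℕ), t ∈ p.1 ∧
      ∀ v ∈ p.1, ∀ n, h v ≤ n → n :: v ∈ p.1 := by
    intro p
    obtain ⟨hop, t, ht⟩ := hP p.1 p.2
    have : ∀ v, ∃ N, v ∈ p.1 → ∀ n, N ≤ n → n :: v ∈ p.1 := by
      intro v
      by_cases hv : v ∈ p.1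
      · obtain ⟨N, hN⟩ := eventually_atTop.1 (isOpen_seqTop_iff.1 hop v hv _ (conv_child f v))
        exact ⟨N, fun _ => hN⟩
      · exact ⟨0, fun h => absurd h hv⟩
    choose h hh using this
    exact ⟨t, h, ht, fun v hv => hh v hv⟩
  choose t h ht hh using hh
  obtain ⟨g, hg⟩ := bounded_of_lt (fun (p : P) m => h p (m :: t p)) hlt
  obtain ⟨a, ha⟩ := h3 g
  obtain ⟨p, hpP, hp⟩ := hP2 _ (isOpen_avoid f a s) ⟨List.suffix_refl _, not_hit_self _ _⟩
  obtain ⟨m, hm1, hm2, hm3⟩ := (ha.and_eventually ((hg ⟨p, hpP⟩).and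
    (eventually_ge_atTop (h ⟨p, hpP⟩ (t ⟨p, hpP⟩))))).exists
  have h4 : m :: t ⟨p, hpP⟩ ∈ p := hh ⟨p, hpP⟩ _ (ht _) m hm3
  have h5 : h ⟨p, hpP⟩ (m :: t ⟨p, hpP⟩) ≤ f a (code (m :: t ⟨p, hpP⟩)) := by
    have := (h1 a).monotone (le_code_cons m (t ⟨p, hpP⟩))
    omega
  have h6 := hh ⟨p, hpP⟩ _ h4 _ h5
  have h7 := hp h6
  have h8 := hp h4
  exact h7.2 ⟨_, h8.1, List.suffix_refl _⟩

end Pool.Agent.Helper94.FrechetB
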