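import Pool.Agent.Helper94.FBFrechet

/-! If `𝔟 ≤ 𝔭` then the space has a base of cardinality `𝔟`. -/

set_option autoImplicit false
open Filter Cardinal Set Topology

namespace Pool.Agent.Helper94.FrechetB

/-- The pseudo-intersection number. -/
noncomputable def pnum : Cardinal.{0} :=
  sInf {κ : Cardinal.{0} | ∃ F : Set (Set ℕ),
    (∀ G : Finset (Set ℕ), (↑G : Set (Set ℕ)) ⊆ F → (⋂ A ∈ G, A).Infinite) ∧
    (¬ ∃ P : Set ℕ, P.Infinite ∧ ∀ A ∈ F, (P \ A).Finite) ∧ Cardinal.mk F = κ}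

theorem pseudo_of_lt {ι : Type} (A : ι → Set ℕ) (h : Cardinal.mk ι < pnum)
    (hA : ∀ s : Finset ι, (⋂ i ∈ s, A i).Infinite) :
    ∃ P : Set ℕ, P.Infinite ∧ ∀ i, (P \ A i).Finite := by
  classical
  by_contra hcon
  have h1 : Cardinal.mk (range A) ∈ {κ : Cardinal.{0} | ∃ F : Set (Set ℕ),
      (∀ G : Finset (Set ℕ), (↑G : Set (Set ℕ)) ⊆ F → (⋂ A ∈ G, A).Infinite) ∧
      (¬ ∃ P : Set ℕ, P.Infinite ∧ ∀ A ∈ F, (P \ A).Finite) ∧ Cardinal.mk F = κ} := by
    refine ⟨range A, fun G hG => ?_, ?_, rfl⟩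
    · obtain ⟨s, rfl⟩ : ∃ s : Finset ι, s.image A = G := by
        have h2 : (↑G : Set (Set ℕ)) ⊆ A '' univ := by simpa using hG
        obtain ⟨s, -, hs⟩ := Finset.subset_set_image_iff.1 h2
        exact ⟨s, hs⟩
      refine (hA s).mono ?_
      intro x hx
      simp only [mem_iInter, Finset.mem_image, forall_exists_index, and_imp] at hx ⊢
      rintro _ i hi rfl
      exact hx i hi
    · rintro ⟨P, hP, hP2⟩
      exact hcon ⟨P, hP, fun i => hP2 _ ⟨i, rfl⟩⟩
  have h2 : pnum ≤ Cardinal.mk (range A) := csInf_le' h1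
  exact absurd (h2.trans mk_range_le) (not_le.2 h)

theorem aleph0_lt_bnum : ℵ₀ < bnum := by
  by_contra hcon
  rw [not_lt] at hcon
  obtain ⟨F, hF, hF2⟩ := bnum_mem
  have hc : F.Countable := by rw [← Cardinal.le_aleph0_iff_set_countable, hF2]; exact hcon
  obtain ⟨f0, hf0, -⟩ := hF fun _ => 0
  obtain ⟨e, he⟩ := hc.exists_eq_range ⟨f0, hf0⟩
  obtain ⟨g, hg⟩ := bounded_seq e
  obtain ⟨f, hf, hfr⟩ := hF g
  rw [he] at hf
  obtain ⟨i, rfl⟩ := hf
  obtain ⟨n, hn⟩ := (hfr.and_eventually (hg i)).exists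
  omega

/-- The basic open sets. -/
def basic {J : Type} (f : J → ℕ → ℕ) (s : List ℕ) (k : ℕ) (F : Finset J) : Set (List ℕ) :=
  {t | s <:+ t ∧ (∀ n < k, ¬ (n :: s) <:+ t) ∧ ∀ a ∈ F, ¬ Hit (f a) s t}

theorem isOpen_basic {J : Type} (f : J → ℕ → ℕ) (s : List ℕ) (k : ℕ) (F : Finset J) :
    IsOpen[seqTop f] (basic f s k F) := by
  rw [isOpen_seqTop_iff]
  intro t ht u hu
  have h1 : ∀ᶠ j in atTop, ∀ n ∈ Finset.range k, ¬ (n :: s) <:+ u j := by
    refine (Filter.eventually_all_finset _).2 fun n hn => ?_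
    exact isOpen_seqTop_iff.1 (isOpen_cone_compl f (n :: s)) t
      (ht.2.1 n (Finset.mem_range.1 hn)) u hu
  have h2 : ∀ᶠ j in atTop, ∀ a ∈ F, ¬ Hit (f a) t (u j) :=
    (Filter.eventually_all_finset _).2 fun a _ => hu.2.2 a
  filter_upwards [hu.1, h1, h2] with j hj1 hj2 hj3
  refine ⟨ht.1.trans hj1, fun n hn => hj2 n (Finset.mem_range.2 hn), fun a ha hcon => ?_⟩
  rcases hit_split hj1 hcon with h | h
  · exact ht.2.2 a ha h
  · exact hj3 a ha h

theorem mem_basic {J : Type} (f : J → ℕ → ℕ) (s : List ℕ) (k : ℕ) (F : Finset J) :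
    s ∈ basic f s k F := by
  refine ⟨List.suffix_refl _, fun n _ h => ?_, fun a _ => not_hit_self _ _⟩
  have := h.length_le
  simp at this

theorem exists_basic {f : I → ℕ → ℕ} (h1 : ∀ a, StrictMono (f a))
    (h2 : ∀ a b, a ≤ b → ∀ᶠ n in atTop, f a n ≤ f b n)
    (h3 : ∀ g : ℕ → ℕ, ∃ a, ∃ᶠ n in atTop, g n < f a n) (hp : bnum ≤ pnum)
    {U : Set (List ℕ)} (hU : IsOpen[seqTop f] U) {s : List ℕ} (hs : s ∈ U) :
    ∃ (k : ℕ) (F : Finset I), basic f s k F ⊆ U := by
  classical
  by_contra hcon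
  push Not at hcon
  have hcon' : ∀ (k : ℕ) (F : Finset I), ∃ t, t ∈ basic f s k F ∧ t ∉ U := fun k F =>
    not_subset.1 (hcon k F)
  let D : ℕ → List ℕ := fun m => Denumerable.ofNat (List ℕ) m
  have hD : ∀ t, D (code t) = t := fun t => Denumerable.ofNat_encode t
  have hD2 : ∀ m, code (D m) = m := fun m => Denumerable.encode_ofNat m
  -- pseudointersections
  have hz : ∀ c : I, ∃ z : ℕ → List ℕ, (∀ n, z n ∉ U) ∧ (∀ n, s <:+ z n) ∧
      (∀ a < c, ∀ᶠ n in atTop, ¬ Hit (f a) s (z n)) ∧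
      (∀ m, ∀ᶠ n in atTop, ¬ (m :: s) <:+ z n) := by
    intro c
    let A : (Iio c ⊕ ℕ) → Set ℕ := fun i => Sum.elim
      (fun a : Iio c => {m | D m ∉ U ∧ s <:+ D m ∧ ¬ Hit (f a.1) s (D m)})
      (fun k => {m | D m ∉ U ∧ s <:+ D m ∧ ¬ (k :: s) <:+ D m}) i
    have hcard : Cardinal.mk (Iio c ⊕ ℕ) < pnum := by
      refine lt_of_lt_of_le ?_ hp
      rw [Cardinal.mk_sum]
      simp only [Cardinal.lift_id, Cardinal.mk_nat]
      exact Cardinal.add_lt_of_lt aleph0_lt_bnum.le (mk_Iio_lt c) aleph0_lt_bnum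
    obtain ⟨P, hP, hPA⟩ := pseudo_of_lt A hcard (by
      intro G
      apply Set.infinite_of_not_bddAbove
      rintro ⟨N, hN⟩
      obtain ⟨t, ht, htU⟩ := hcon' (G.sup (Sum.elim (fun _ => 0) (fun k => k + 1)) + N + 1)
        (G.toLeft.image Subtype.val)
      have hmem : code t ∈ ⋂ i ∈ G, A i := by
        simp only [mem_iInter]
        rintro (a | k) hi
        · change D (code t) ∉ U ∧ s <:+ D (code t) ∧ ¬ Hit (f a.1) s (D (code t))
          rw [hD]
          exact ⟨htU, ht.1, ht.2.2 _ (Finset.mem_image.2 ⟨a, Finset.mem_toLeft.2 hi, rfl⟩)⟩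
        · change D (code t) ∉ U ∧ s <:+ D (code t) ∧ ¬ (k :: s) <:+ D (code t)
          rw [hD]
          refine ⟨htU, ht.1, ht.2.1 _ ?_⟩
          have := Finset.le_sup (f := Sum.elim (fun _ : Iio c => 0) (fun k : ℕ => k + 1)) hi
          simp only [Sum.elim_inr] at this
          omega
      have h4 := hN hmem
      have hne : s ≠ t := by rintro rfl; exact htU hs
      obtain ⟨n, hn⟩ := exists_cons_suffix ht.1 hne
      have h5 : ¬ n < G.sup (Sum.elim (fun _ => 0) (fun k => k + 1)) + N + 1 := fun h =>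
        ht.2.1 n h hn
      have h6 := (le_code_cons n s).trans (code_mono hn)
      omega)
    have hP' : (P ∩ {m | D m ∉ U ∧ s <:+ D m}).Infinite := by
      have h4 : P ⊆ (P \ A (Sum.inr 0)) ∪ (P ∩ {m | D m ∉ U ∧ s <:+ D m}) := by
        intro m hm
        by_cases hA : m ∈ A (Sum.inr 0)
        · exact Or.inr ⟨hm, hA.1, hA.2.1⟩
        · exact Or.inl ⟨hm, hA⟩
      intro hfin
      exact hP (((hPA _).union hfin).subset h4)
    obtain ⟨φ, hφ, hφ2⟩ := extraction_of_frequently_atTop (Nat.frequently_atTop_iff_infinite.2 hP')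
    have hev : ∀ i, ∀ᶠ n in atTop, φ n ∈ A i := by
      intro i
      have h4 : ∀ᶠ m in atTop, m ∉ P \ A i := by
        rw [← Nat.cofinite_eq_atTop]
        exact (hPA i).eventually_cofinite_notMem
      filter_upwards [hφ.tendsto_atTop.eventually h4] with n hn
      by_contra hcon
      exact hn ⟨(hφ2 n).1, hcon⟩
    refine ⟨fun n => D (φ n), fun n => (hφ2 n).2.1, fun n => (hφ2 n).2.2, fun a ha => ?_,
      fun m => ?_⟩
    · exact (hev (Sum.inl ⟨a, ha⟩)).mono fun n hn => hn.2.2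
    · exact (hev (Sum.inr m)).mono fun n hn => hn.2.2
  choose z hz1 hz2 hz3 hz4 using hz
  have hm : ∀ c n, ∃ m, (m :: s) <:+ z c n := fun c n =>
    exists_cons_suffix (hz2 c n) (by intro h; exact hz1 c n (h ▸ hs))
  choose m hm using hm
  obtain ⟨c, n, hn1, hn2, hn3⟩ := core (M := fun c n => code (m c n :: s))
    (H := fun c n => code (z c n)) (R := fun a c n => Hit (f a) (m c n :: s) (z c n))
    h1 h2 h3 (by
      intro c
      rw [tendsto_atTop]
      intro N
      have h4 : ∀ᶠ n in atTop, ∀ m ∈ Finset.range N, ¬ (m :: s) <:+ z c n :=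
        (Filter.eventually_all_finset _).2 fun m _ => hz4 c m
      filter_upwards [h4] with n hn
      have : N ≤ m c n := by
        by_contra hlt
        exact hn (m c n) (Finset.mem_range.2 (by omega)) (hm c n)
      exact this.trans (le_code_cons _ _))
    (by
      intro c a ha
      filter_upwards [hz3 c a ha] with n hn
      rintro ⟨v, hv1, hv2⟩
      exact hn ⟨v, (List.suffix_cons _ _).trans hv1, hv2⟩)
    (by
      rintro a c n h ⟨v, hv1, hv2⟩
      have h6 : f a (code v) ≤ code (z c n) := (le_code_cons _ _).trans (code_mono hv2)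
      have h7 : f a (code (m c n :: s)) ≤ f a (code v) := (h1 a).monotone (code_mono hv1)
      omega)
  have hconv : Conv f (fun k => z (c k) (n k)) s := by
    refine ⟨Eventually.of_forall fun k => hz2 _ _, fun m0 => ?_, fun a => ?_⟩
    · filter_upwards [eventually_gt_atTop (code (m0 :: s))] with k hk hcon
      have h4 := hn2 k
      have h5 : (m0 :: s) = (m (c k) (n k) :: s) := by
        rcases suffix_cmp hcon (hm (c k) (n k)) with h | h
        · exact h.eq_of_length (by simp)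
        · exact (h.eq_of_length (by simp)).symm
      simp only [← h5] at h4
      omega
    · filter_upwards [hn3 a, eventually_gt_atTop (code (f a (code s) :: s))] with k hk hk2 hcon
      rcases hit_split (hm (c k) (n k)) hcon with h | h
      · obtain ⟨v, hv1, hv2⟩ := h
        have h5 := hv1.length_le
        have h6 := hv2.length_le
        simp only [List.length_cons] at h6
        have hv : s = v := hv1.eq_of_length (by omega)
        subst hv
        have h7 := hv2.eq_of_length (by simp)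
        have h4 := hn2 k
        simp only [← h7] at h4
        omega
      · exact hk h
  obtain ⟨k, hk⟩ := (isOpen_seqTop_iff.1 hU s hs _ hconv).exists
  exact hz1 _ _ hk

theorem mk_basics (f : I → ℕ → ℕ) :
    Cardinal.mk (range fun p : List ℕ × ℕ × Finset I => basic f p.1 p.2.1 p.2.2) ≤ bnum := by
  have hinf : Infinite I := by
    rw [Cardinal.infinite_iff, mk_I]
    exact aleph0_lt_bnum.le
  refine mk_range_le.trans ?_
  simp only [Cardinal.mk_prod, Cardinal.lift_id, Cardinal.mk_finset_of_infinite, mk_I,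
    Cardinal.mk_nat, Cardinal.mk_list_eq_aleph0]
  have h := aleph0_lt_bnum.le
  calc ℵ₀ * (ℵ₀ * bnum) ≤ bnum * (bnum * bnum) := by gcongr
    _ = bnum := by rw [Cardinal.mul_eq_self h, Cardinal.mul_eq_self h]

end Pool.Agent.Helper94.FrechetB
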