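import Mathlib

/-! The bounding number and the existence of a well ordered unbounded scale. -/

set_option autoImplicit false
open Filter Cardinal Set

namespace Pool.Agent.Helper94.FrechetB

/-- The bounding number `𝔟`: the least cardinality of a family of functions `ℕ → ℕ` that is not
eventually dominated by a single function. -/
noncomputable def bnum : Cardinal.{0} :=
  sInf {κ : Cardinal.{0} | ∃ F : Set (ℕ → ℕ),
    (∀ g : ℕ → ℕ, ∃ f ∈ F, ∃ᶠ n in atTop, g n < f n) ∧ Cardinal.mk F = κ}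

theorem bnum_mem : ∃ F : Set (ℕ → ℕ), (∀ g : ℕ → ℕ, ∃ f ∈ F, ∃ᶠ n in atTop, g n < f n) ∧
    Cardinal.mk F = bnum := by
  have : bnum ∈ {κ : Cardinal.{0} | ∃ F : Set (ℕ → ℕ),
      (∀ g : ℕ → ℕ, ∃ f ∈ F, ∃ᶠ n in atTop, g n < f n) ∧ Cardinal.mk F = κ} := by
    apply csInf_mem
    refine ⟨_, univ, fun g => ⟨fun n => g n + 1, mem_univ _, ?_⟩, rfl⟩
    exact Eventually.frequently (Eventually.of_forall fun n => Nat.lt_succ_self _)
  exact this

theorem bounded_of_lt {ι : Type} (f : ι → ℕ → ℕ) (h : Cardinal.mk ι < bnum) :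
    ∃ g : ℕ → ℕ, ∀ i, ∀ᶠ n in atTop, f i n ≤ g n := by
  by_contra hcon
  push Not at hcon
  have h1 : Cardinal.mk (range f) ∈ {κ : Cardinal.{0} | ∃ F : Set (ℕ → ℕ),
      (∀ g : ℕ → ℕ, ∃ f ∈ F, ∃ᶠ n in atTop, g n < f n) ∧ Cardinal.mk F = κ} := by
    refine ⟨range f, fun g => ?_, rfl⟩
    obtain ⟨i, hi⟩ := hcon g
    exact ⟨f i, mem_range_self i, hi⟩
  have h2 : bnum ≤ Cardinal.mk (range f) := csInf_le' h1
  exact absurd (h2.trans mk_range_le) (not_le.2 h)

theorem bounded_seq (f : ℕ → ℕ → ℕ) : ∃ g : ℕ → ℕ, ∀ i, ∀ᶠ n in atTop, f i n ≤ g n := by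
  refine ⟨fun n => ∑ i ∈ Finset.range (n + 1), f i n, fun i => ?_⟩
  filter_upwards [eventually_ge_atTop i] with n hn
  exact Finset.single_le_sum (f := fun i => f i n) (fun _ _ => Nat.zero_le _)
    (Finset.mem_range.2 (by omega))

/-- The index type of the scale. -/
abbrev I : Type := bnum.ord.ToType

theorem mk_I : Cardinal.mk I = bnum := by simp [I]

theorem mk_Iio_lt (a : I) : Cardinal.mk (Iio a) < bnum := by
  simpa using Cardinal.mk_Iio_lt a (by simp)

theorem exists_strictMono_ge (g : ℕ → ℕ) : ∃ h : ℕ → ℕ, StrictMono h ∧ ∀ n, g n ≤ h n := by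
  refine ⟨fun n => n + ∑ i ∈ Finset.range (n + 1), g i, ?_, fun n => ?_⟩
  · apply strictMono_nat_of_lt_succ
    intro n
    simp only [Finset.sum_range_succ _ (n + 1)]
    omega
  · have := Finset.single_le_sum (f := g) (s := Finset.range (n + 1)) (fun _ _ => Nat.zero_le _)
      (Finset.mem_range.2 (Nat.lt_succ_self n))
    simp only
    omega

theorem exists_scale : ∃ f : I → ℕ → ℕ, (∀ a, StrictMono (f a)) ∧
    (∀ a b, a ≤ b → ∀ᶠ n in atTop, f a n ≤ f b n) ∧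
    (∀ g : ℕ → ℕ, ∃ a, ∃ᶠ n in atTop, g n < f a n) := by
  obtain ⟨F, hF, hcard⟩ := bnum_mem
  have he : Nonempty (I ≃ F) := Cardinal.eq.1 (by rw [mk_I, hcard])
  obtain ⟨e⟩ := he
  have step : ∀ (a : I) (g : ∀ b, b < a → ℕ → ℕ), ∃ h : ℕ → ℕ, StrictMono h ∧
      (∀ b (hb : b < a), ∀ᶠ n in atTop, g b hb n ≤ h n) ∧ ∀ n, (e a : ℕ → ℕ) n ≤ h n := by
    intro a g
    obtain ⟨g', hg'⟩ := bounded_of_lt (fun b : Iio a => g b.1 b.2) (mk_Iio_lt a)
    obtain ⟨h, hmono, hh⟩ := exists_strictMono_ge (fun n => g' n + (e a : ℕ → ℕ) n)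
    refine ⟨h, hmono, fun b hb => ?_, fun n => ?_⟩
    · filter_upwards [hg' ⟨b, hb⟩] with n hn
      have := hh n
      omega
    · have := hh n
      omega
  choose! H hH1 hH2 hH3 using step
  let f : I → ℕ → ℕ := wellFounded_lt.fix (fun a g => H a g)
  have hf : ∀ a, f a = H a (fun b _ => f b) := fun a => wellFounded_lt.fix_eq _ a
  refine ⟨f, fun a => ?_, fun a b hab => ?_, fun g => ?_⟩
  · rw [hf]; exact hH1 _ _
  · rcases hab.eq_or_lt with rfl | hab
    · exact Eventually.of_forall fun n => le_rfl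
    · rw [hf b]
      exact hH2 b (fun b _ => f b) a hab
  · obtain ⟨f', hf', hfreq⟩ := hF g
    refine ⟨e.symm ⟨f', hf'⟩, hfreq.mono fun n hn => hn.trans_le ?_⟩
    rw [hf]
    have := hH3 (e.symm ⟨f', hf'⟩) (fun b _ => f b) n
    simpa using this

end Pool.Agent.Helper94.FrechetB
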