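import Pool.Agent.Helper94.FBScale

/-! The sequential space on finite words, and its properties. -/

set_option autoImplicit false
open Filter Cardinal Set Topology

namespace Pool.Agent.Helper94.FrechetB

/-- The code of a word. -/
def code (v : List ℕ) : ℕ := Encodable.encode v

theorem code_cons (n : ℕ) (v : List ℕ) : code (n :: v) = Nat.succ (Nat.pair n (code v)) := by
  simp [code]

theorem code_le_cons (n : ℕ) (v : List ℕ) : code v ≤ code (n :: v) := by
  rw [code_cons]; exact (Nat.right_le_pair _ _).trans (Nat.le_succ _)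

theorem le_code_cons (n : ℕ) (v : List ℕ) : n ≤ code (n :: v) := by
  rw [code_cons]; exact (Nat.left_le_pair _ _).trans (Nat.le_succ _)

theorem code_mono {v w : List ℕ} (h : v <:+ w) : code v ≤ code w := by
  induction w with
  | nil => rw [List.suffix_nil.1 h]
  | cons a w ih =>
    rcases List.suffix_cons_iff.1 h with h | h
    · rw [h]
    · exact (ih h).trans (code_le_cons a w)

/-- `Hit f s t`: beyond its final part `s`, the word `t` (read from right to left) has a node `v`
followed by the letter `f (code v)`. -/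
def Hit (f : ℕ → ℕ) (s t : List ℕ) : Prop :=
  ∃ v, s <:+ v ∧ (f (code v) :: v) <:+ t

/-- `u` converges to `s`. -/
def Conv {I : Type} (f : I → ℕ → ℕ) (u : ℕ → List ℕ) (s : List ℕ) : Prop :=
  (∀ᶠ j in atTop, s <:+ u j) ∧ (∀ n, ∀ᶠ j in atTop, ¬ (n :: s) <:+ u j) ∧
    ∀ a, ∀ᶠ j in atTop, ¬ Hit (f a) s (u j)

theorem Conv.comp {I : Type} {f : I → ℕ → ℕ} {u : ℕ → List ℕ} {s : List ℕ} (h : Conv f u s)
    {φ : ℕ → ℕ} (hφ : Tendsto φ atTop atTop) : Conv f (fun j => u (φ j)) s :=
  ⟨hφ.eventually h.1, fun n => hφ.eventually (h.2.1 n), fun a => hφ.eventually (h.2.2 a)⟩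

/-- The sequential topology. -/
@[reducible] def seqTop {I : Type} (f : I → ℕ → ℕ) : TopologicalSpace (List ℕ) where
  IsOpen U := ∀ s ∈ U, ∀ u, Conv f u s → ∀ᶠ j in atTop, u j ∈ U
  isOpen_univ := fun _ _ _ _ => Eventually.of_forall fun _ => mem_univ _
  isOpen_inter := fun U V hU hV s hs u hu => (hU s hs.1 u hu).and (hV s hs.2 u hu)
  isOpen_sUnion := fun S hS s hs u hu => by
    obtain ⟨U, hU, hsU⟩ := hs
    exact (hS U hU s hsU u hu).mono fun j hj => ⟨U, hU, hj⟩

theorem isOpen_seqTop_iff {I : Type} {f : I → ℕ → ℕ} {U : Set (List ℕ)} :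
    IsOpen[seqTop f] U ↔ ∀ s ∈ U, ∀ u, Conv f u s → ∀ᶠ j in atTop, u j ∈ U := Iff.rfl

theorem suffix_cmp {a b c : List ℕ} (h1 : a <:+ c) (h2 : b <:+ c) : a <:+ b ∨ b <:+ a :=
  List.suffix_or_suffix_of_suffix h1 h2

/-- proper extension contains a child -/
theorem exists_cons_suffix {s t : List ℕ} (h : s <:+ t) (hne : s ≠ t) :
    ∃ n, (n :: s) <:+ t := by
  obtain ⟨w, rfl⟩ := h
  have hw : w ≠ [] := by rintro rfl; simp at hne
  refine ⟨w.getLast hw, ?_⟩
  refine ⟨w.dropLast, ?_⟩
  conv_rhs => rw [← List.dropLast_append_getLast hw]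
  simp

theorem isOpen_cone {I : Type} (f : I → ℕ → ℕ) (s : List ℕ) : IsOpen[seqTop f] {t | s <:+ t} := by
  rw [isOpen_seqTop_iff]
  intro t ht u hu
  exact hu.1.mono fun j hj => List.IsSuffix.trans ht hj

theorem isOpen_cone_compl {I : Type} (f : I → ℕ → ℕ) (s : List ℕ) :
    IsOpen[seqTop f] {t | ¬ s <:+ t} := by
  rw [isOpen_seqTop_iff]
  intro t ht u hu
  change ¬ s <:+ t at ht
  by_cases hts : t <:+ s
  · have hne : t ≠ s := by rintro rfl; exact ht (List.suffix_refl _)
    obtain ⟨n, hn⟩ := exists_cons_suffix hts hne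
    exact (hu.2.1 n).mono fun j hj h => hj (hn.trans h)
  · exact hu.1.mono fun j hj h => (suffix_cmp hj h).elim hts ht

theorem t2 {I : Type} (f : I → ℕ → ℕ) : @T2Space _ (seqTop f) := by
  let _ := seqTop f
  refine ⟨fun s t hst => ?_⟩
  by_cases h : s <:+ t
  · have h' : ¬ t <:+ s := fun h' => hst (h.eq_of_length (le_antisymm h.length_le h'.length_le))
    exact ⟨{x | ¬ t <:+ x}, {x | t <:+ x}, isOpen_cone_compl f t, isOpen_cone f t, h',
      List.suffix_refl _, Set.disjoint_left.2 fun x hx hx' => hx hx'⟩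
  · exact ⟨{x | s <:+ x}, {x | ¬ s <:+ x}, isOpen_cone f s, isOpen_cone_compl f s,
      List.suffix_refl _, h, Set.disjoint_left.2 fun x hx hx' => hx' hx⟩

/-- The tree component of `s` in `U`. -/
def comp (U : Set (List ℕ)) (s : List ℕ) : Set (List ℕ) :=
  {t | s <:+ t ∧ ∀ v, s <:+ v → v <:+ t → v ∈ U}

theorem isOpen_comp {I : Type} (f : I → ℕ → ℕ) {U : Set (List ℕ)} (hU : IsOpen[seqTop f] U)
    (s : List ℕ) : IsOpen[seqTop f] (comp U s) := by
  classical
  rw [isOpen_seqTop_iff] at hU ⊢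
  intro t ht u hu
  let v : ℕ → List ℕ := fun j =>
    if h : ∃ w, s <:+ w ∧ w <:+ u j ∧ t <:+ w ∧ w ∉ U then h.choose else t
  have hv : ∀ j, v j = t ∨ (t <:+ v j ∧ v j <:+ u j ∧ v j ∉ U) := by
    intro j
    by_cases h : ∃ w, s <:+ w ∧ w <:+ u j ∧ t <:+ w ∧ w ∉ U
    · right
      have e : v j = h.choose := dif_pos h
      rw [e]
      exact ⟨h.choose_spec.2.2.1, h.choose_spec.2.1, h.choose_spec.2.2.2⟩
    · left
      exact dif_neg h
  have htU : t ∈ U := ht.2 t ht.1 (List.suffix_refl _)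
  have hconv : Conv f v t := by
    refine ⟨Eventually.of_forall fun j => ?_, fun n => ?_, fun a => ?_⟩
    · rcases hv j with h | h
      · rw [h]
      · exact h.1
    · filter_upwards [hu.2.1 n] with j hj hcon
      rcases hv j with h | h
      · rw [h] at hcon
        have := hcon.length_le
        simp at this
      · exact hj (hcon.trans h.2.1)
    · filter_upwards [hu.2.2 a] with j hj hcon
      obtain ⟨w, hw1, hw2⟩ := hcon
      rcases hv j with h | h
      · rw [h] at hw2
        have h1 := hw2.length_le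
        have h2 := hw1.length_le
        simp at h1
        omega
      · exact hj ⟨w, hw1, hw2.trans h.2.1⟩
  have hev := hU t htU v hconv
  filter_upwards [hev, hu.1] with j hj htu
  refine ⟨ht.1.trans htu, fun w hsw hwu => ?_⟩
  by_contra hwU
  rcases suffix_cmp hwu htu with h | h
  · exact hwU (ht.2 w hsw h)
  · have hex : ∃ w, s <:+ w ∧ w <:+ u j ∧ t <:+ w ∧ w ∉ U := ⟨w, hsw, hwu, h, hwU⟩
    have e : v j = hex.choose := dif_pos hex
    rw [e] at hj
    exact hex.choose_spec.2.2.2 hj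

theorem isClosed_comp {I : Type} (f : I → ℕ → ℕ) (U : Set (List ℕ))
    (s : List ℕ) : IsOpen[seqTop f] (comp U s)ᶜ := by
  rw [isOpen_seqTop_iff]
  intro t ht u hu
  by_cases hst : s <:+ t
  · have : ∃ v, s <:+ v ∧ v <:+ t ∧ v ∉ U := by
      by_contra hcon
      push Not at hcon
      exact ht ⟨hst, hcon⟩
    obtain ⟨v, hsv, hvt, hvU⟩ := this
    exact hu.1.mono fun j hj hmem => hvU (hmem.2 v hsv (hvt.trans hj))
  · have := isOpen_seqTop_iff.1 (isOpen_cone_compl f s) t hst u hu
    exact this.mono fun j hj hmem => hj hmem.1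

theorem clopen_basis {I : Type} (f : I → ℕ → ℕ) :
    ∃ B : Set (Set (List ℕ)), @TopologicalSpace.IsTopologicalBasis _ (seqTop f) B ∧
      ∀ s ∈ B, @IsClopen _ (seqTop f) s := by
  let _ := seqTop f
  refine ⟨{V | IsClopen V}, ?_, fun s hs => hs⟩
  apply TopologicalSpace.isTopologicalBasis_of_isOpen_of_nhds
  · intro V hV
    exact hV.2
  · intro s U hs hU
    refine ⟨comp U s, ⟨⟨isClosed_comp f U s⟩, isOpen_comp f hU s⟩, ⟨List.suffix_refl _, ?_⟩, ?_⟩
    · intro v h1 h2
      have : v = s := h2.eq_of_length (le_antisymm h2.length_le h1.length_le)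
      rw [this]; exact hs
    · intro t ht
      exact ht.2 t ht.1 (List.suffix_refl _)

end Pool.Agent.Helper94.FrechetB
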