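import Mathlib

set_option autoImplicit false

open Filter Topology Complex Set Asymptotics Metric Bornology

namespace Pool.Agent.Helper94.Half

/-- The open right half-plane. -/
def RH : Set ℂ := {w | 0 < w.re}

theorem mem_RH {w : ℂ} : w ∈ RH ↔ 0 < w.re := Iff.rfl

theorem isOpen_RH : IsOpen RH := isOpen_lt continuous_const Complex.continuous_re

theorem convex_RH : Convex ℝ RH := convex_halfSpace_re_gt 0

theorem isPreconnected_RH : IsPreconnected RH := convex_RH.isPreconnected

/-- The filter `w → ∞` inside the half-plane. -/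
noncomputable def atInf : Filter ℂ := cobounded ℂ ⊓ 𝓟 RH

theorem atInf_le : atInf ≤ cobounded ℂ := inf_le_left

theorem eventually_mem_RH : ∀ᶠ w in atInf, w ∈ RH :=
  (mem_inf_of_right (mem_principal_self RH) : RH ∈ atInf)

theorem tendsto_ofReal_atInf : Tendsto (fun x : ℝ => (x : ℂ)) atTop atInf := by
  rw [atInf, tendsto_inf]
  refine ⟨?_, ?_⟩
  · rw [← tendsto_norm_atTop_iff_cobounded]
    have : Tendsto (fun x : ℝ => |x|) atTop atTop := tendsto_abs_atTop_atTop
    simpa using this
  · rw [tendsto_principal]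
    filter_upwards [eventually_gt_atTop 0] with x hx
    simpa [mem_RH] using hx

instance : NeBot atInf := tendsto_ofReal_atInf.neBot

/-- Maximum principle on the half-plane with lower limits at the boundary. -/
theorem mp {f : ℂ → ℂ} (hf : DifferentiableOn ℂ f RH)
    (hb : ∀ y : ℝ, ∀ δ > 0, ∀ᶠ w in 𝓝[RH] (y * I : ℂ), -δ < (f w).re)
    (hinf : ∀ δ > 0, ∀ᶠ w in atInf, -δ < (f w).re) : ∀ w ∈ RH, 0 ≤ (f w).re := by
  intro w1 hw1
  by_contra hneg
  push Not at hneg
  set K : Set ℂ := {w | w ∈ RH ∧ (f w).re ≤ (f w1).re} with hK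
  have hδ : 0 < -(f w1).re := by linarith
  have hclosed : IsClosed K := by
    rw [← isOpen_compl_iff, isOpen_iff_eventually]
    intro z hz
    rcases lt_trichotomy z.re 0 with h | h | h
    · have : ∀ᶠ w in 𝓝 z, w.re < 0 := Complex.continuous_re.continuousAt.eventually (gt_mem_nhds h)
      filter_upwards [this] with w hw hwK
      have := hwK.1
      rw [mem_RH] at this
      linarith
    · have hz' : z = ((z.im : ℝ) : ℂ) * I := by
        apply Complex.ext <;> simp [h]
      have h1 := hb z.im _ hδ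
      rw [← hz', eventually_nhdsWithin_iff] at h1
      filter_upwards [h1] with w hw hwK
      have := hw hwK.1
      have h2 := hwK.2
      linarith
    · have hzR : z ∈ RH := h
      have hc : ContinuousAt f z := (hf.differentiableAt (isOpen_RH.mem_nhds hzR)).continuousAt
      have hlt : (f w1).re < (f z).re := by
        by_contra hle
        exact hz ⟨hzR, not_lt.1 hle⟩
      have : ∀ᶠ w in 𝓝 z, (f w1).re < (f w).re :=
        (Complex.continuous_re.continuousAt.comp hc).eventually (lt_mem_nhds hlt)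
      filter_upwards [this] with w hw hwK
      have := hwK.2
      linarith
  have hbdd : Bornology.IsBounded K := by
    have h1 := hinf _ hδ
    rw [atInf, eventually_inf_principal] at h1
    rw [← isCobounded_compl_iff, isCobounded_def]
    filter_upwards [h1] with w hw hwK
    have := hw hwK.1
    have h2 := hwK.2
    linarith
  have hcomp : IsCompact K := Metric.isCompact_of_isClosed_isBounded hclosed hbdd
  have hcont : ContinuousOn (fun w => (f w).re) K := by
    have : ContinuousOn f K := hf.continuousOn.mono (fun w hw => hw.1)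
    exact Complex.continuous_re.comp_continuousOn this
  obtain ⟨w0, hw0K, hw0⟩ := hcomp.exists_isMinOn ⟨w1, hw1, le_rfl⟩ hcont
  have hmin : ∀ w ∈ RH, (f w0).re ≤ (f w).re := by
    intro w hw
    by_cases h : (f w).re ≤ (f w1).re
    · exact hw0 ⟨hw, h⟩
    · push Not at h
      exact (hw0K.2).trans h.le
  have hg : DifferentiableOn ℂ (fun w => Complex.exp (-f w)) RH := hf.neg.cexp
  have hmax : IsMaxOn (norm ∘ fun w => Complex.exp (-f w)) RH w0 := by
    intro w hw
    simp only [Function.comp_apply, mem_ofPred_eq, Complex.norm_exp, neg_re, Real.exp_le_exp]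
    have := hmin w hw
    linarith
  have heq := Complex.norm_eqOn_of_isPreconnected_of_isMaxOn isPreconnected_RH isOpen_RH hg hw0K.1
    hmax
  have h2 : ∀ᶠ w in atInf, -(-(f w1).re) < (f w).re := hinf _ hδ
  obtain ⟨w, hw, hwR⟩ := (h2.and eventually_mem_RH).exists
  have h3 := heq hwR
  simp only [Function.comp_apply, Complex.norm_exp, neg_re, Function.const_apply,
    Real.exp_eq_exp] at h3
  have h4 := hw0K.2
  linarith

/-- Growth bound for self-maps of the half-plane along the positive axis. -/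
theorem growth {G : ℂ → ℂ} (hG : DifferentiableOn ℂ G RH) (hpos : ∀ w ∈ RH, 0 ≤ (G w).re)
    {x0 x : ℝ} (hx0 : 0 < x0) (hx : x0 ≤ x) : ‖G x‖ ≤ x / x0 * ‖G x0‖ := by
  set ψ : ℂ → ℂ := fun z => x0 * (1 + z) / (1 - z) with hψ
  have hz1 : ∀ z ∈ ball (0 : ℂ) 1, 1 - z ≠ 0 := by
    intro z hz h
    rw [sub_eq_zero] at h
    rw [← h] at hz
    simp at hz
  have hmap : MapsTo ψ (ball 0 1) RH := by
    intro z hz
    have h1 := hz1 z hz
    rw [mem_ball_zero_iff] at hz
    rw [mem_RH, hψ]
    have h2 : (x0 * (1 + z) / (1 - z)).re = x0 * (1 - ‖z‖ ^ 2) / ‖1 - z‖ ^ 2 := by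
      rw [mul_div_assoc, Complex.re_ofReal_mul, Complex.div_re, ← Complex.normSq_eq_norm_sq,
        ← Complex.normSq_eq_norm_sq, Complex.normSq_apply, Complex.normSq_apply]
      simp
      ring
    simp only
    rw [h2]
    have h3 : 0 < ‖1 - z‖ := norm_pos_iff.2 h1
    have h4 : 0 < 1 - ‖z‖ ^ 2 := by nlinarith [norm_nonneg z]
    positivity
  have hψd : DifferentiableOn ℂ ψ (ball 0 1) := by
    intro z hz
    have h1 := hz1 z hz
    apply DifferentiableAt.differentiableWithinAt
    rw [hψ]
    fun_prop (disch := assumption)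
  have hcomp : DifferentiableOn ℂ (fun z => -G (ψ z)) (ball 0 1) := (hG.comp hψd hmap).neg
  have hxpos : 0 < x := hx0.trans_le hx
  set r : ℝ := (x - x0) / (x + x0) with hr
  have hr0 : 0 ≤ r := div_nonneg (by linarith) (by linarith)
  have hr1 : r < 1 := by rw [hr, div_lt_one (by linarith)]; linarith
  have hψr : ψ r = x := by
    rw [hψ, hr]
    simp only
    push_cast
    have h1 : (x : ℂ) + x0 ≠ 0 := by exact_mod_cast (by linarith : x + x0 ≠ 0)
    have h2 : (x0 : ℂ) ≠ 0 := by exact_mod_cast hx0.ne'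
    have h3 : (1 : ℂ) - (x - x0) / (x + x0) = 2 * x0 / (x + x0) := by
      field_simp; ring
    rw [h3]
    field_simp
    ring
  have hψ0 : ψ 0 = x0 := by simp [hψ]
  have hb : ∀ M : ℝ, 0 < M → ‖G x‖ ≤ 2 * M * r / (1 - r) + ‖G x0‖ * (1 + r) / (1 - r) := by
    intro M hM
    have h1 := Complex.borelCaratheodory (z := (r : ℂ)) hM hcomp (R := 1)
      (by intro z hz
          simp only [mem_ofPred_eq, neg_re]
          have := hpos _ (hmap hz)
          linarith) one_pos
      (by rw [mem_ball_zero_iff, Complex.norm_real, Real.norm_eq_abs, abs_of_nonneg hr0]; exact hr1)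
    simpa [hψr, hψ0, abs_of_nonneg hr0] using h1
  have h1r : 0 < 1 - r := by linarith
  have hlim : ‖G x‖ ≤ ‖G x0‖ * (1 + r) / (1 - r) := by
    refine le_of_forall_pos_le_add (fun ε hε => ?_)
    have h2 := hb (ε * (1 - r) / (2 * (r + 1))) (by positivity)
    have h3 : 2 * (ε * (1 - r) / (2 * (r + 1))) * r / (1 - r) = ε * (r / (r + 1)) := by
      field_simp
    rw [h3] at h2
    have h4 : ε * (r / (r + 1)) ≤ ε := by
      have : r / (r + 1) ≤ 1 := by rw [div_le_one (by linarith)]; linarith
      nlinarith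
    linarith
  have h5 : (1 + r) / (1 - r) = x / x0 := by
    rw [hr]
    have h1 : x + x0 ≠ 0 := by linarith
    have h3 : 1 - (x - x0) / (x + x0) = 2 * x0 / (x + x0) := by
      field_simp; ring
    have h4 : 1 + (x - x0) / (x + x0) = 2 * x / (x + x0) := by
      field_simp; ring
    rw [h3, h4]
    field_simp
  rw [mul_div_assoc, h5] at hlim
  linarith [mul_comm ‖G (x0 : ℂ)‖ (x / x0)]

/-- Hopf lemma (Burns-Krantz type rigidity at infinity) for the half-plane. -/
theorem hopf {f : ℂ → ℂ} (hf : DifferentiableOn ℂ f RH) (hpos : ∀ w ∈ RH, 0 ≤ (f w).re)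
    (ho : Tendsto (fun x : ℝ => (x : ℂ) * f x) atTop (𝓝 0)) : ∀ w ∈ RH, f w = 0 := by
  -- vanishing on the positive axis
  have hreal : ∀ x0 : ℝ, 0 < x0 → f x0 = 0 := by
    intro x0 hx0
    have hη : ∀ η : ℝ, 0 < η → ∀ x : ℝ, x0 ≤ x → ‖f x0 + η‖ ≤ x / x0 * ‖f x + η‖ := by
      intro η hη x hx
      have hne : ∀ w ∈ RH, f w + η ≠ 0 := by
        intro w hw h
        have h1 := hpos w hw
        have h2 : (f w + η).re = 0 := by rw [h]; simp
        simp at h2
        linarith
      have hG : DifferentiableOn ℂ (fun w => (f w + η)⁻¹) RH :=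
        (hf.add_const _).inv hne
      have hGpos : ∀ w ∈ RH, 0 ≤ ((f w + η)⁻¹).re := by
        intro w hw
        rw [Complex.inv_re]
        have h1 := hpos w hw
        have : 0 ≤ (f w + η).re := by simp; linarith
        exact div_nonneg this (Complex.normSq_nonneg _)
      have h1 := growth hG hGpos hx0 hx
      have hxR : (x : ℂ) ∈ RH := by
        have : 0 < x := hx0.trans_le hx
        simpa [mem_RH] using this
      have hx0R : (x0 : ℂ) ∈ RH := by simpa [mem_RH] using hx0
      have n1 : 0 < ‖f x + η‖ := norm_pos_iff.2 (hne _ hxR)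
      have n2 : 0 < ‖f x0 + η‖ := norm_pos_iff.2 (hne _ hx0R)
      rw [norm_inv, norm_inv] at h1
      calc ‖f x0 + η‖ = ‖f x0 + η‖ * ‖f x + η‖ * ‖f x + η‖⁻¹ := by field_simp
        _ ≤ ‖f x0 + η‖ * ‖f x + η‖ * (x / x0 * ‖f x0 + η‖⁻¹) := by gcongr
        _ = x / x0 * ‖f x + η‖ := by field_simp
    have h0 : ∀ x : ℝ, x0 ≤ x → ‖f x0‖ ≤ x / x0 * ‖f x‖ := by
      intro x hx
      have hc1 : Tendsto (fun η : ℝ => ‖f x0 + η‖) (𝓝[>] 0) (𝓝 ‖f x0‖) := by
        have : Tendsto (fun η : ℝ => ‖f x0 + η‖) (𝓝 0) (𝓝 ‖f x0 + (0 : ℝ)‖) := by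
          apply Continuous.tendsto
          fun_prop
        simpa using this.mono_left nhdsWithin_le_nhds
      have hc2 : Tendsto (fun η : ℝ => x / x0 * ‖f x + η‖) (𝓝[>] 0) (𝓝 (x / x0 * ‖f x‖)) := by
        have : Tendsto (fun η : ℝ => x / x0 * ‖f x + η‖) (𝓝 0) (𝓝 (x / x0 * ‖f x + (0 : ℝ)‖)) := by
          apply Continuous.tendsto
          fun_prop
        simpa using this.mono_left nhdsWithin_le_nhds
      refine le_of_tendsto_of_tendsto hc1 hc2 ?_
      filter_upwards [self_mem_nhdsWithin] with η hη'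
      exact hη η hη' x hx
    have h1 : Tendsto (fun x : ℝ => x / x0 * ‖f x‖) atTop (𝓝 0) := by
      have h2 : Tendsto (fun x : ℝ => ‖(x : ℂ) * f x‖ / x0) atTop (𝓝 (‖(0 : ℂ)‖ / x0)) :=
        (ho.norm).div_const x0
      rw [norm_zero, zero_div] at h2
      refine h2.congr' ?_
      filter_upwards [eventually_ge_atTop 0] with x hx
      rw [norm_mul, Complex.norm_real, Real.norm_eq_abs, abs_of_nonneg hx]
      ring
    have h3 : ‖f x0‖ ≤ 0 := by
      refine ge_of_tendsto h1 ?_
      filter_upwards [eventually_ge_atTop x0] with x hx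
      exact h0 x hx
    exact norm_le_zero_iff.1 h3
  -- identity theorem
  have han : AnalyticOnNhd ℂ f RH := hf.analyticOnNhd isOpen_RH
  have h1R : (1 : ℂ) ∈ RH := by simp [mem_RH]
  have hfreq : ∃ᶠ z in 𝓝[≠] (1 : ℂ), f z = 0 := by
    have ht : Tendsto (fun x : ℝ => (x : ℂ)) (𝓝[>] 1) (𝓝[≠] (1 : ℂ)) := by
      rw [tendsto_nhdsWithin_iff]
      refine ⟨?_, ?_⟩
      · have : Tendsto (fun x : ℝ => (x : ℂ)) (𝓝 1) (𝓝 ((1 : ℝ) : ℂ)) :=
          Complex.continuous_ofReal.tendsto 1
        simpa using this.mono_left nhdsWithin_le_nhds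
      · filter_upwards [self_mem_nhdsWithin] with x hx
        simp only [mem_compl_iff, mem_singleton_iff]
        intro h
        have : x = 1 := by exact_mod_cast h
        rw [this] at hx
        simp at hx
    apply ht.frequently
    apply Eventually.frequently
    filter_upwards [self_mem_nhdsWithin] with x hx
    apply hreal
    exact lt_trans one_pos hx
  have := han.eqOn_zero_of_preconnected_of_frequently_eq_zero isPreconnected_RH h1R hfreq
  intro w hw
  exact this hw

end Pool.Agent.Helper94.Half
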