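import Pool.Agent.Helper94.Half

set_option autoImplicit false

open Filter Topology Complex Set Asymptotics Metric Bornology

namespace Pool.Agent.Helper94.Half

/-- Data of a holomorphic self-map of the symmetrized product of two half-planes which is
tangent to the identity at the boundary point `{∞, 1}`. -/
structure Tangent (S P : ℂ × ℂ → ℂ) : Prop where
  hS : DifferentiableOn ℂ S (RH ×ˢ RH)
  hP : DifferentiableOn ℂ P (RH ×ˢ RH)
  symS : ∀ a ∈ RH, ∀ b ∈ RH, S (a, b) = S (b, a)
  symP : ∀ a ∈ RH, ∀ b ∈ RH, P (a, b) = P (b, a)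
  roots : ∀ a ∈ RH, ∀ b ∈ RH, ∃ W₁ ∈ RH, ∃ W₂ ∈ RH, S (a, b) = W₁ + W₂ ∧ P (a, b) = W₁ * W₂
  asS : ∀ φ : ℂ → ℂ, MapsTo φ RH RH → (fun w => φ w - 1) =O[atInf] (fun w => w⁻¹) →
    (fun w => S (w, φ w) - (w + φ w)) =o[atInf] (fun w => w⁻¹)
  asP : (∀ a ∈ RH, ∀ b ∈ RH, S (a, b) = a + b) →
    ∀ φ : ℂ → ℂ, MapsTo φ RH RH → (fun w => φ w - 1) =O[atInf] (fun w => w⁻¹) →
    (fun w => P (w, φ w) - w * φ w) =o[atInf] (fun w => (w ^ 2)⁻¹)

theorem tendsto_inv_atInf : Tendsto (fun w : ℂ => w⁻¹) atInf (𝓝 0) :=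
  tendsto_inv₀_cobounded.mono_left atInf_le

theorem bigO_div_add (c d : ℂ) : (fun w : ℂ => c / (w + d)) =O[atInf] (fun w => w⁻¹) := by
  have h1 : ∀ᶠ w in atInf, 2 * ‖d‖ + 1 ≤ ‖w‖ :=
    atInf_le ((tendsto_norm_cobounded_atTop).eventually (eventually_ge_atTop _))
  refine IsBigO.of_bound (2 * ‖c‖) ?_
  filter_upwards [h1] with w hw
  have h2 : ‖w‖ / 2 ≤ ‖w + d‖ := by
    have := norm_sub_le_norm_add w d
    have h3 := norm_nonneg d
    linarith
  have hwpos : 0 < ‖w‖ := by
    have h3 := norm_nonneg d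
    linarith
  rw [norm_div, norm_inv]
  calc ‖c‖ / ‖w + d‖ ≤ ‖c‖ / (‖w‖ / 2) := by gcongr
    _ = 2 * ‖c‖ * ‖w‖⁻¹ := by field_simp

theorem diff_graph {S : ℂ × ℂ → ℂ} (hS : DifferentiableOn ℂ S (RH ×ˢ RH)) {φ : ℂ → ℂ}
    (hφ : DifferentiableOn ℂ φ RH) (hm : MapsTo φ RH RH) :
    DifferentiableOn ℂ (fun w => S (w, φ w)) RH := by
  have h1 : DifferentiableOn ℂ (fun w => (w, φ w)) RH := differentiableOn_id.prodMk hφ
  exact hS.comp h1 (fun w hw => ⟨hw, hm hw⟩)

theorem eventually_re_lt (y : ℝ) {δ : ℝ} (hδ : 0 < δ) : ∀ᶠ w in 𝓝[RH] (y * I : ℂ), w.re < δ := by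
  have h : ((y : ℂ) * I).re < δ := by simpa using hδ
  exact nhdsWithin_le_nhds (Complex.continuous_re.continuousAt.eventually (gt_mem_nhds h))

theorem eventually_mem_RH' (y : ℝ) : ∀ᶠ w in 𝓝[RH] (y * I : ℂ), w ∈ RH := self_mem_nhdsWithin

/-- Step 1a. -/
theorem Tangent.re_le {S P : ℂ × ℂ → ℂ} (h : Tangent S P) {a b : ℂ} (ha : a ∈ RH) (hb : b ∈ RH) :
    a.re ≤ (S (a, b)).re := by
  rw [mem_RH] at ha hb
  set N1 : ℝ := ‖b + 1‖ with hN1
  set N2 : ℝ := ‖b - 1‖ with hN2
  have hN1sq : N1 ^ 2 = (b.re + 1) ^ 2 + b.im ^ 2 := by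
    rw [hN1, ← Complex.normSq_eq_norm_sq, Complex.normSq_apply]; simp; ring
  have hN2sq : N2 ^ 2 = (b.re - 1) ^ 2 + b.im ^ 2 := by
    rw [hN2, ← Complex.normSq_eq_norm_sq, Complex.normSq_apply]; simp; ring
  have hN2nn : 0 ≤ N2 := norm_nonneg _
  have hN1nn : 0 ≤ N1 := norm_nonneg _
  have hlt : N2 < N1 := by
    apply lt_of_pow_lt_pow_left₀ 2 hN1nn
    rw [hN1sq, hN2sq]; nlinarith
  have hN1pos : 0 < N1 := hN2nn.trans_lt hlt
  set l : ℝ := 2 * a.re / (N1 - N2) with hl
  have hlpos : 0 < l := div_pos (by linarith) (by linarith)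
  have hl1 : l * N1 - l * N2 = 2 * a.re := by
    rw [hl]; field_simp [(by linarith : N1 - N2 ≠ 0)]
  set D : ℂ := (l / N1 : ℝ) * (starRingEnd ℂ) (b + 1) with hD
  have hbD : (b + 1) * D = ((l * N1 : ℝ) : ℂ) := by
    rw [hD, mul_left_comm, Complex.mul_conj, Complex.normSq_eq_norm_sq, ← hN1]
    push_cast
    have : (N1 : ℂ) ≠ 0 := by exact_mod_cast hN1pos.ne'
    field_simp
  have hDnorm : ‖D‖ = l := by
    rw [hD, norm_mul, Complex.norm_real, Real.norm_eq_abs, RCLike.norm_conj, ← hN1,
      abs_of_pos (by positivity)]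
    field_simp
  have hD0 : D ≠ 0 := by
    rw [← norm_pos_iff, hDnorm]; exact hlpos
  set c : ℂ := (b - 1) * D with hc
  have hcnorm : ‖c‖ = N2 * l := by rw [hc, norm_mul, hDnorm]
  set d : ℂ := D - a with hd
  have hkey : 2 * d.re + c.re = ‖c‖ := by
    have h1 : c = (b + 1) * D - 2 * D := by rw [hc]; ring
    have h2 : c.re = l * N1 - 2 * D.re := by
      rw [h1, hbD]; simp
    rw [hcnorm, h2, hd]
    simp only [sub_re]
    linarith
  have hdre : 0 ≤ d.re := by
    have := Complex.re_le_norm c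
    linarith
  set φ : ℂ → ℂ := fun w => 1 + c / (w + d) with hφ
  have hv : ∀ w ∈ RH, w + d ≠ 0 := by
    intro w hw h0
    rw [mem_RH] at hw
    have : (w + d).re = 0 := by rw [h0]; simp
    simp at this
    linarith
  have hmaps : MapsTo φ RH RH := by
    intro w hw
    have hv1 := hv w hw
    rw [mem_RH] at hw ⊢
    have hre : (φ w).re = (Complex.normSq (w + d) + c.re * (w + d).re + c.im * (w + d).im) /
        Complex.normSq (w + d) := by
      have hns : Complex.normSq (w + d) ≠ 0 := by simpa using hv1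
      simp only [hφ, add_re, one_re, Complex.div_re]
      field_simp
      simp
      ring
    rw [hre]
    apply div_pos _ (Complex.normSq_pos.2 hv1)
    have hcsq : ‖c‖ ^ 2 = c.re ^ 2 + c.im ^ 2 := by
      rw [← Complex.normSq_eq_norm_sq, Complex.normSq_apply]; ring
    rw [Complex.normSq_apply]
    have h1 : ‖c‖ / 2 < (w + d).re + c.re / 2 := by
      simp only [add_re]; linarith
    have h2 : (‖c‖ / 2) ^ 2 < ((w + d).re + c.re / 2) ^ 2 := by
      have := norm_nonneg c
      gcongr
    nlinarith [sq_nonneg ((w + d).im + c.im / 2)]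
  have hφd : DifferentiableOn ℂ φ RH := by
    intro w hw
    apply DifferentiableAt.differentiableWithinAt
    have := hv w hw
    rw [hφ]
    fun_prop (disch := assumption)
  have hφa : φ a = b := by
    simp only [hφ, hc, hd]
    rw [show a + (D - a) = D by ring, mul_div_assoc, div_self hD0]
    ring
  have hO : (fun w => φ w - 1) =O[atInf] (fun w => w⁻¹) := by
    have := bigO_div_add c d
    simpa [hφ] using this
  have has := h.asS φ hmaps hO
  have ht1 : Tendsto (fun w => S (w, φ w) - (w + φ w)) atInf (𝓝 0) :=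
    has.isBigO.trans_tendsto tendsto_inv_atInf
  have ht2 : Tendsto (fun w => φ w - 1) atInf (𝓝 0) := hO.trans_tendsto tendsto_inv_atInf
  have ht3 : Tendsto (fun w => (S (w, φ w) - w)) atInf (𝓝 1) := by
    have := (ht1.add ht2).add_const 1
    rw [zero_add, zero_add] at this
    refine this.congr (fun w => ?_)
    ring
  have hmp := mp (f := fun w => S (w, φ w) - w)
    ((diff_graph h.hS hφd hmaps).sub differentiableOn_id)
    (by
      intro y δ hδ
      filter_upwards [eventually_re_lt y hδ, eventually_mem_RH' y] with w hw hwR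
      obtain ⟨W₁, h1, W₂, h2, h3, -⟩ := h.roots w hwR (φ w) (hmaps hwR)
      rw [mem_RH] at h1 h2
      rw [h3]
      simp only [sub_re, add_re]
      linarith)
    (by
      intro δ hδ
      have h1 : Tendsto (fun w => (S (w, φ w) - w).re) atInf (𝓝 (1 : ℂ).re) :=
        (Complex.continuous_re.tendsto 1).comp ht3
      apply h1.eventually (lt_mem_nhds _)
      simp; linarith)
  have := hmp a ha
  simp only [hφa, sub_re] at this
  linarith

/-- Step 1b. -/
theorem Tangent.re_Q {S P : ℂ × ℂ → ℂ} (h : Tangent S P) {a b : ℂ} (ha : a ∈ RH) (hb : b ∈ RH) :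
    0 ≤ (S (a, b) - a - b).re := by
  have hbS : ∀ w ∈ RH, b.re ≤ (S (w, b)).re := by
    intro w hw
    rw [h.symS w hw b hb]
    exact h.re_le hb hw
  have h1w : ∀ w ∈ RH, 1 + w ∈ slitPlane := by
    intro w hw
    rw [mem_RH] at hw
    left
    simp only [add_re, one_re]
    linarith
  have h1n : ∀ w ∈ RH, 1 ≤ ‖1 + w‖ := by
    intro w hw
    rw [mem_RH] at hw
    have := Complex.re_le_norm (1 + w)
    simp only [add_re, one_re] at this
    linarith
  have hε : ∀ ε : ℝ, 0 < ε → 0 ≤ (S (a, b) - a - b).re + ε * Real.log ‖1 + a‖ := by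
    intro ε hε
    have hmp := mp (f := fun w => S (w, b) - w - b + ε * Complex.log (1 + w))
      (by
        apply DifferentiableOn.add
        · exact ((diff_graph h.hS (differentiableOn_const b) (fun _ _ => hb)).sub
            differentiableOn_id).sub_const b
        · apply DifferentiableOn.const_mul
          apply DifferentiableOn.clog
          · exact (differentiableOn_const 1).add differentiableOn_id
          · exact h1w)
      (by
        intro y δ hδ
        filter_upwards [eventually_re_lt y hδ, eventually_mem_RH' y] with w hw hwR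
        have h1 := hbS w hwR
        have h2 : 0 ≤ ε * Real.log ‖1 + w‖ :=
          mul_nonneg hε.le (Real.log_nonneg (h1n w hwR))
        simp only [add_re, sub_re, Complex.re_ofReal_mul, Complex.log_re]
        linarith)
      (by
        intro δ hδ
        have hlog : Tendsto (fun w : ℂ => ε * Real.log ‖1 + w‖) atInf atTop := by
          apply Tendsto.const_mul_atTop hε
          apply Real.tendsto_log_atTop.comp
          have h1 : Tendsto (fun w : ℂ => 1 + w) atInf (cobounded ℂ) := by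
            refine Tendsto.mono_left ?_ atInf_le
            exact tendsto_const_add_cobounded 1
          exact tendsto_norm_cobounded_atTop.comp h1
        filter_upwards [hlog.eventually (eventually_gt_atTop b.re), eventually_mem_RH] with w hw hwR
        have h1 := h.re_le hwR hb
        simp only [add_re, sub_re, Complex.re_ofReal_mul, Complex.log_re]
        linarith)
    have := hmp a ha
    simpa [Complex.re_ofReal_mul, Complex.log_re] using this
  have hlog : 0 ≤ Real.log ‖1 + a‖ := Real.log_nonneg (h1n a ha)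
  refine le_of_forall_pos_le_add (fun η hη => ?_)
  have := hε (η / (Real.log ‖1 + a‖ + 1)) (by positivity)
  have h2 : η / (Real.log ‖1 + a‖ + 1) * Real.log ‖1 + a‖ ≤ η := by
    rw [div_mul_eq_mul_div, div_le_iff₀ (by positivity)]
    nlinarith
  linarith

theorem tendsto_mul_of_littleO {f : ℂ → ℂ} (hf : f =o[atInf] (fun w => w⁻¹)) :
    Tendsto (fun x : ℝ => (x : ℂ) * f x) atTop (𝓝 0) := by
  have h1 : (fun w => w * f w) =o[atInf] (fun _ => (1 : ℂ)) := by
    have h2 : (fun w : ℂ => w * f w) =o[atInf] (fun w => w * w⁻¹) :=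
      (isBigO_refl _ _).mul_isLittleO hf
    refine h2.congr' EventuallyEq.rfl ?_
    have h3 : ∀ᶠ w in atInf, w ∈ RH := eventually_mem_RH
    filter_upwards [h3] with w hw
    have : w ≠ 0 := by
      rintro rfl
      simp [mem_RH] at hw
    exact mul_inv_cancel₀ this
  have h3 := (isLittleO_one_iff ℂ).1 h1
  exact h3.comp tendsto_ofReal_atInf

theorem one_mem_RH : (1 : ℂ) ∈ RH := by simp [mem_RH]

/-- If `Re g ≥ 0` and `g` vanishes at an interior point then `g = 0`. -/
theorem eq_zero_of_zero {g : ℂ → ℂ} (hg : DifferentiableOn ℂ g RH) (hpos : ∀ w ∈ RH, 0 ≤ (g w).re)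
    {w0 : ℂ} (hw0 : w0 ∈ RH) (h0 : g w0 = 0) : ∀ w ∈ RH, g w = 0 := by
  have hd : DifferentiableOn ℂ (fun w => Complex.exp (-g w)) RH := hg.neg.cexp
  have hmax : IsMaxOn (norm ∘ fun w => Complex.exp (-g w)) RH w0 := by
    intro w hw
    simp only [Function.comp_apply, mem_ofPred_eq, Complex.norm_exp, neg_re, Real.exp_le_exp, h0,
      zero_re, neg_zero]
    have := hpos w hw
    linarith
  have heq := Complex.norm_eqOn_of_isPreconnected_of_isMaxOn isPreconnected_RH isOpen_RH hd hw0 hmax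
  have hre : ∀ w ∈ RH, (g w).re = 0 := by
    intro w hw
    have h3 := heq hw
    simp only [Function.comp_apply, Complex.norm_exp, neg_re, Function.const_apply,
      Real.exp_eq_exp, h0, zero_re, neg_zero] at h3
    linarith
  obtain ⟨c, hc⟩ := (hg.analyticOnNhd isOpen_RH).eq_const_of_re_eq_const hre isOpen_RH
    ⟨⟨w0, hw0⟩, isPreconnected_RH⟩
  intro w hw
  rw [hc w hw, ← hc w0 hw0, h0]

/-- Step 1. -/
theorem Tangent.S_eq {S P : ℂ × ℂ → ℂ} (h : Tangent S P) : ∀ a ∈ RH, ∀ b ∈ RH, S (a, b) = a + b := by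
  have h1 : ∀ a ∈ RH, S (a, 1) - a - 1 = 0 := by
    apply hopf (f := fun a => S (a, 1) - a - 1)
    · exact ((diff_graph h.hS (differentiableOn_const 1) (fun _ _ => one_mem_RH)).sub
            differentiableOn_id).sub_const 1
    · intro w hw
      exact h.re_Q hw one_mem_RH
    · refine tendsto_mul_of_littleO (f := fun a => S (a, 1) - a - 1) ?_
      have := h.asS (fun _ => 1) (fun _ _ => one_mem_RH)
        (by simp only [sub_self]; exact isBigO_zero _ _)
      refine this.congr_left (fun w => ?_)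
      ring
  intro a ha b hb
  have h2 : ∀ b ∈ RH, S (a, b) - a - b = 0 := by
    apply eq_zero_of_zero (w0 := 1) (g := fun b => S (a, b) - a - b) _ _ one_mem_RH (h1 a ha)
    · have h3 : DifferentiableOn ℂ (fun b : ℂ => (a, b)) RH :=
        (differentiableOn_const a).prodMk differentiableOn_id
      exact ((h.hS.comp h3 (fun w hw => ⟨ha, hw⟩)).sub_const a).sub differentiableOn_id
    · intro b hb
      exact h.re_Q ha hb
  have := h2 b hb
  linear_combination this

end Pool.Agent.Helper94.Half
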