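import Pool.Agent.Helper94.Pair

set_option autoImplicit false

open Filter Topology Complex Set Asymptotics Metric Bornology

namespace Pool.Agent.Helper94.Half

/-- If `X₁ + X₂ = t * conj κ` with `X₁, X₂` in the half-plane and `t > 0`, then
`Re (κ X₁ X₂) > 0`. -/
theorem re_mul_pos {X₁ X₂ κ : ℂ} {t : ℝ} (h1 : 0 < X₁.re) (h2 : 0 < X₂.re) (ht : 0 < t)
    (h : X₁ + X₂ = t * (starRingEnd ℂ) κ) : 0 < (κ * (X₁ * X₂)).re := by
  have e1 : X₁.re + X₂.re = t * κ.re := by
    have := congrArg Complex.re h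
    simpa using this
  have e2 : X₁.im + X₂.im = -(t * κ.im) := by
    have := congrArg Complex.im h
    simpa using this
  have h3 : t * (κ * (X₁ * X₂)).re =
      (X₁.re ^ 2 + X₁.im ^ 2) * X₂.re + (X₂.re ^ 2 + X₂.im ^ 2) * X₁.re := by
    simp only [mul_re, mul_im]
    have : t * (κ.re * (X₁.re * X₂.re - X₁.im * X₂.im) - κ.im * (X₁.re * X₂.im + X₁.im * X₂.re)) =
      (t * κ.re) * (X₁.re * X₂.re - X₁.im * X₂.im) + (-(t * κ.im)) * (X₁.re * X₂.im + X₁.im * X₂.re) := by
      ring
    rw [this, ← e1, ← e2]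
    ring
  have h4 : 0 < (X₁.re ^ 2 + X₁.im ^ 2) * X₂.re + (X₂.re ^ 2 + X₂.im ^ 2) * X₁.re := by
    have : 0 < X₁.re ^ 2 := by positivity
    have : 0 < X₂.re ^ 2 := by positivity
    have h5 : 0 < (X₁.re ^ 2 + X₁.im ^ 2) * X₂.re := by
      apply mul_pos _ h2; nlinarith [sq_nonneg X₁.im]
    have h6 : 0 < (X₂.re ^ 2 + X₂.im ^ 2) * X₁.re := by
      apply mul_pos _ h1; nlinarith [sq_nonneg X₂.im]
    linarith
  rw [← h3] at h4
  exact (mul_pos_iff_of_pos_left ht).1 h4

section Step2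

variable (a : ℂ)

/-- auxiliary factor -/
noncomputable def E (w : ℂ) : ℂ := 1 - a / (w + 1) ^ 2

/-- the graph function -/
noncomputable def gr (w : ℂ) : ℂ := 1 + a * (w - 1) / (w + 1) ^ 2

/-- the multiplier -/
noncomputable def kap (w : ℂ) : ℂ := (w + 1) / E a w

/-- auxiliary -/
noncomputable def tt (w : ℂ) : ℝ := (w + gr a w).re / (kap a w).re

/-- auxiliary -/
noncomputable def eta (w : ℂ) : ℝ := ((w + gr a w).im + tt a w * (kap a w).im) / 2

variable {a}

theorem one_le_norm {w : ℂ} (hw : 0 ≤ w.re) : 1 ≤ ‖w + 1‖ := by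
  have := Complex.re_le_norm (w + 1)
  simp only [add_re, one_re] at this
  linarith

theorem ne0 {w : ℂ} (hw : 0 ≤ w.re) : w + 1 ≠ 0 := by
  have := one_le_norm hw
  rw [← norm_pos_iff]; linarith

theorem norm_div_sq (ha : ‖a‖ < 1 / 2) {w : ℂ} (hw : 0 ≤ w.re) : ‖a / (w + 1) ^ 2‖ < 1 / 2 := by
  have h1 := one_le_norm hw
  rw [norm_div, norm_pow]
  calc ‖a‖ / ‖w + 1‖ ^ 2 ≤ ‖a‖ / 1 := by
        gcongr
        nlinarith
    _ < 1 / 2 := by simpa using ha

theorem norm_E (ha : ‖a‖ < 1 / 2) {w : ℂ} (hw : 0 ≤ w.re) : 1 / 2 < ‖E a w‖ := by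
  have h1 := norm_div_sq ha hw
  have h2 : ‖(1 : ℂ)‖ - ‖a / (w + 1) ^ 2‖ ≤ ‖E a w‖ := norm_sub_norm_le _ _
  rw [norm_one] at h2
  linarith

theorem E_ne (ha : ‖a‖ < 1 / 2) {w : ℂ} (hw : 0 ≤ w.re) : E a w ≠ 0 := by
  have := norm_E ha hw
  rw [← norm_pos_iff]; linarith

theorem gr_sub (w : ℂ) (hw : 0 ≤ w.re) : gr a w - w = -((w - 1) * E a w) := by
  have := ne0 hw
  rw [gr, E]
  field_simp
  ring

theorem norm_gr (ha : ‖a‖ < 1 / 2) {w : ℂ} (hw : 0 ≤ w.re) : ‖gr a w - 1‖ < 1 / 2 := by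
  have h1 := one_le_norm hw
  have h2 : ‖w - 1‖ ≤ ‖w + 1‖ := by
    apply le_of_sq_le_sq _ (norm_nonneg _)
    rw [← Complex.normSq_eq_norm_sq, ← Complex.normSq_eq_norm_sq, Complex.normSq_apply,
      Complex.normSq_apply]
    simp
    nlinarith
  rw [gr, add_sub_cancel_left, norm_div, norm_mul, norm_pow]
  calc ‖a‖ * ‖w - 1‖ / ‖w + 1‖ ^ 2 ≤ ‖a‖ * ‖w + 1‖ / ‖w + 1‖ ^ 2 := by gcongr
    _ = ‖a‖ / ‖w + 1‖ := by field_simp
    _ ≤ ‖a‖ / 1 := by gcongr
    _ < 1 / 2 := by simpa using ha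

theorem gr_re (ha : ‖a‖ < 1 / 2) {w : ℂ} (hw : 0 ≤ w.re) : 1 / 2 < (gr a w).re := by
  have h1 := norm_gr ha hw
  have h2 := Complex.abs_re_le_norm (gr a w - 1)
  rw [abs_le] at h2
  simp only [sub_re, one_re] at h2
  linarith

theorem kap_re (ha : ‖a‖ < 1 / 2) {w : ℂ} (hw : 0 ≤ w.re) : 0 < (kap a w).re := by
  have h1 := one_le_norm hw
  have h2 := norm_E ha hw
  have h3 := E_ne ha hw
  have h4 := ne0 hw
  have hE : (w + 1) ^ 2 * (1 - E a w) = a := by
    rw [E]; field_simp; ring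
  have h5 : kap a w - (w + 1) = a / ((w + 1) * E a w) := by
    rw [kap, eq_div_iff (mul_ne_zero h4 h3)]
    field_simp
    linear_combination hE
  have h6 : ‖kap a w - (w + 1)‖ < 1 := by
    rw [h5, norm_div, norm_mul]
    rw [div_lt_one (by positivity)]
    nlinarith [norm_nonneg a]
  have h7 := Complex.abs_re_le_norm (kap a w - (w + 1))
  rw [abs_le] at h7
  simp only [sub_re, add_re, one_re] at h7
  linarith

theorem kap_ne (ha : ‖a‖ < 1 / 2) {w : ℂ} (hw : 0 ≤ w.re) : kap a w ≠ 0 := by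
  intro h
  have := kap_re ha hw
  rw [h] at this
  simp at this

theorem tt_pos (ha : ‖a‖ < 1 / 2) {w : ℂ} (hw : 0 ≤ w.re) : 0 < tt a w := by
  apply div_pos _ (kap_re ha hw)
  have := gr_re ha hw
  simp only [add_re]
  linarith

theorem sum_eq (ha : ‖a‖ < 1 / 2) {w : ℂ} (hw : 0 ≤ w.re) :
    (w + gr a w) - 2 * (I * eta a w) = tt a w * (starRingEnd ℂ) (kap a w) := by
  have h1 := kap_re ha hw
  apply Complex.ext
  · simp [tt]
    field_simp
  · simp [eta]
    ring

theorem eta_bdry (ha : ‖a‖ < 1 / 2) (y : ℝ) : eta a (y * I) = y := by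
  set w : ℂ := y * I with hw
  have hw0 : 0 ≤ w.re := by simp [hw]
  set u : ℂ := gr a w - w with hu
  have hku : kap a w * u = ((1 + y ^ 2 : ℝ) : ℂ) := by
    rw [hu, gr_sub w hw0, kap]
    have := E_ne ha hw0
    field_simp
    rw [hw]
    ring_nf
    rw [I_sq]
    push_cast
    ring
  have h1 := kap_re ha hw0
  have e2 : (kap a w).re * u.im + (kap a w).im * u.re = 0 := by
    have := congrArg Complex.im hku
    rwa [Complex.mul_im, Complex.ofReal_im] at this
  have hure : u.re = (w + gr a w).re := by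
    rw [hu]; simp [hw]
  have ht : tt a w * (kap a w).re = u.re := by
    rw [hure, tt]; field_simp
  have h3 : tt a w * (kap a w).im = -u.im := by
    have h4 : (kap a w).re * u.im = (kap a w).re * (-(tt a w * (kap a w).im)) := by
      rw [← ht] at e2
      linear_combination e2
    have h5 := mul_left_cancel₀ h1.ne' h4
    linarith
  rw [eta, h3, hu]
  simp [hw]

theorem contE (w : ℂ) (hw : 0 ≤ w.re) : ContinuousAt (E a) w := by
  have h := ne0 hw
  have : (w + 1) ^ 2 ≠ 0 := pow_ne_zero 2 h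
  unfold E
  fun_prop (disch := assumption)

theorem contgr (w : ℂ) (hw : 0 ≤ w.re) : ContinuousAt (gr a) w := by
  have h := ne0 hw
  have : (w + 1) ^ 2 ≠ 0 := pow_ne_zero 2 h
  unfold gr
  fun_prop (disch := assumption)

theorem contkap (ha : ‖a‖ < 1 / 2) (w : ℂ) (hw : 0 ≤ w.re) : ContinuousAt (kap a) w := by
  have h := E_ne ha hw
  have h2 := contE (a := a) w hw
  unfold kap
  exact (continuousAt_id.add continuousAt_const).div h2 h

theorem conttt (ha : ‖a‖ < 1 / 2) (w : ℂ) (hw : 0 ≤ w.re) : ContinuousAt (tt a) w := by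
  have h := (kap_re ha hw).ne'
  have h1 := contkap ha w hw
  have h2 := contgr (a := a) w hw
  unfold tt
  exact (Complex.continuous_re.continuousAt.comp (continuousAt_id.add h2)).div
    (Complex.continuous_re.continuousAt.comp h1) h

theorem conteta (ha : ‖a‖ < 1 / 2) (w : ℂ) (hw : 0 ≤ w.re) : ContinuousAt (eta a) w := by
  have h1 := contkap ha w hw
  have h2 := contgr (a := a) w hw
  have h3 := conttt ha w hw
  unfold eta
  exact ((Complex.continuous_im.continuousAt.comp (continuousAt_id.add h2)).add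
    (h3.mul (Complex.continuous_im.continuousAt.comp h1))).div_const 2

theorem gr_maps (ha : ‖a‖ < 1 / 2) : MapsTo (gr a) RH RH := by
  intro w hw
  have := gr_re ha (le_of_lt hw)
  rw [mem_RH]; linarith

theorem gr_diff : DifferentiableOn ℂ (gr a) RH := by
  intro w hw
  have h := ne0 (le_of_lt hw)
  have : (w + 1) ^ 2 ≠ 0 := pow_ne_zero 2 h
  apply DifferentiableAt.differentiableWithinAt
  unfold gr
  fun_prop (disch := assumption)

theorem kap_diff (ha : ‖a‖ < 1 / 2) : DifferentiableOn ℂ (kap a) RH := by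
  intro w hw
  have h := ne0 (le_of_lt hw)
  have h1 : (w + 1) ^ 2 ≠ 0 := pow_ne_zero 2 h
  have h2 := E_ne ha (le_of_lt hw)
  apply DifferentiableAt.differentiableWithinAt
  have h3 : DifferentiableAt ℂ (E a) w := by
    unfold E
    fun_prop (disch := assumption)
  unfold kap
  fun_prop (disch := assumption)

theorem gr_bigO : (fun w => gr a w - 1) =O[atInf] (fun w => w⁻¹) := by
  have h1 := bigO_div_add a 1
  refine (IsBigO.trans ?_ h1)
  refine IsBigO.of_bound 1 ?_
  filter_upwards [eventually_mem_RH] with w hw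
  have hw0 : 0 ≤ w.re := le_of_lt hw
  have h1 := one_le_norm hw0
  have h2 : ‖w - 1‖ ≤ ‖w + 1‖ := by
    apply le_of_sq_le_sq _ (norm_nonneg _)
    rw [← Complex.normSq_eq_norm_sq, ← Complex.normSq_eq_norm_sq, Complex.normSq_apply,
      Complex.normSq_apply]
    simp
    nlinarith
  rw [gr, add_sub_cancel_left, norm_div, norm_mul, norm_pow, norm_div, one_mul]
  calc ‖a‖ * ‖w - 1‖ / ‖w + 1‖ ^ 2 ≤ ‖a‖ * ‖w + 1‖ / ‖w + 1‖ ^ 2 := by gcongr
    _ = ‖a‖ / ‖w + 1‖ := by field_simp

theorem kap_bigO (ha : ‖a‖ < 1 / 2) : (fun w => kap a w) =O[atInf] (fun w => w) := by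
  refine IsBigO.of_bound 4 ?_
  have h1 : ∀ᶠ w in atInf, 1 ≤ ‖w‖ :=
    atInf_le ((tendsto_norm_cobounded_atTop).eventually (eventually_ge_atTop _))
  filter_upwards [eventually_mem_RH, h1] with w hw hw1
  have h2 := norm_E ha (le_of_lt hw)
  have h3 : ‖w + 1‖ ≤ 2 * ‖w‖ := by
    have := norm_add_le w 1
    rw [norm_one] at this
    linarith
  rw [kap, norm_div, div_le_iff₀ (by linarith)]
  nlinarith [norm_nonneg w]

end Step2

/-- Step 2 on a graph. -/
theorem Tangent.graph_zero {S P : ℂ × ℂ → ℂ} (h : Tangent S P) {a : ℂ} (ha : ‖a‖ < 1 / 2) :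
    ∀ w ∈ RH, P (w, gr a w) - w * gr a w = 0 := by
  have hSeq := h.S_eq
  set G : ℂ → ℂ := fun w => P (w, gr a w) - w * gr a w with hG
  have hGd : DifferentiableOn ℂ G RH :=
    (diff_graph h.hP gr_diff (gr_maps ha)).sub (differentiableOn_id.mul gr_diff)
  set V : ℂ → ℂ := fun w => kap a w * G w with hV
  have hVd : DifferentiableOn ℂ V RH := (kap_diff ha).mul hGd
  have hO : (fun w => G w) =o[atInf] (fun w => (w ^ 2)⁻¹) := h.asP hSeq (gr a) (gr_maps ha) gr_bigO
  have hVo : V =o[atInf] (fun w => w⁻¹) := by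
    have h1 : V =o[atInf] (fun w : ℂ => w * (w ^ 2)⁻¹) := (kap_bigO ha).mul_isLittleO hO
    refine h1.congr' EventuallyEq.rfl ?_
    filter_upwards [eventually_mem_RH] with w hw
    have : w ≠ 0 := by
      rintro rfl
      simp [mem_RH] at hw
    field_simp
  have hVt : Tendsto V atInf (𝓝 0) := hVo.isBigO.trans_tendsto tendsto_inv_atInf
  set Θ : ℂ → ℝ := fun w => (kap a w * ((w - I * eta a w) * (gr a w - I * eta a w))).re with hΘ
  have hineq : ∀ w ∈ RH, -Θ w < (V w).re := by
    intro w hw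
    have hw0 : 0 ≤ w.re := le_of_lt hw
    obtain ⟨W₁, h1, W₂, h2, h3, h4⟩ := h.roots w hw (gr a w) (gr_maps ha hw)
    rw [hSeq w hw _ (gr_maps ha hw)] at h3
    have h5 := re_mul_pos (X₁ := W₁ - I * eta a w) (X₂ := W₂ - I * eta a w) (κ := kap a w)
      (t := tt a w) (by simpa using mem_RH.1 h1) (by simpa using mem_RH.1 h2) (tt_pos ha hw0)
      (by rw [← sum_eq ha hw0, h3]; ring)
    have h6 : kap a w * ((W₁ - I * eta a w) * (W₂ - I * eta a w)) =
        kap a w * ((w - I * eta a w) * (gr a w - I * eta a w)) + V w := by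
      simp only [hV, hG]
      rw [h4]
      linear_combination (kap a w * I * eta a w) * h3
    rw [h6, add_re] at h5
    simp only [hΘ]
    linarith
  have hpos := mp hVd
    (by
      intro y δ hδ
      have hy0 : 0 ≤ ((y : ℂ) * I).re := by simp
      have hc : ContinuousAt Θ (y * I) := by
        have c1 := contkap ha _ hy0
        have c2 := contgr (a := a) _ hy0
        have c3 := conteta ha _ hy0
        have c4 : ContinuousAt (fun w => ((eta a w : ℝ) : ℂ)) (y * I) :=
          Complex.continuous_ofReal.continuousAt.comp c3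
        apply Complex.continuous_re.continuousAt.comp
        exact c1.mul ((continuousAt_id.sub (continuousAt_const.mul c4)).mul
          (c2.sub (continuousAt_const.mul c4)))
      have hΘ0 : Θ (y * I) = 0 := by
        simp only [hΘ, eta_bdry ha y]
        rw [show (y : ℂ) * I - I * y = 0 by ring]
        simp
      have h1 : ∀ᶠ w in 𝓝 ((y : ℂ) * I), Θ w < δ := by
        apply hc.eventually (gt_mem_nhds _)
        rw [hΘ0]; exact hδ
      filter_upwards [nhdsWithin_le_nhds h1, eventually_mem_RH' y] with w hw hwR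
      have := hineq w hwR
      linarith)
    (by
      intro δ hδ
      have h1 : Tendsto (fun w => (V w).re) atInf (𝓝 (0 : ℂ).re) :=
        (Complex.continuous_re.tendsto 0).comp hVt
      apply h1.eventually (lt_mem_nhds _)
      simp; linarith)
  have hzero := hopf hVd hpos (tendsto_mul_of_littleO hVo)
  intro w hw
  have h1 := hzero w hw
  simp only [hV, mul_eq_zero] at h1
  rcases h1 with h1 | h1
  · exact absurd h1 (kap_ne ha (le_of_lt hw))
  · exact h1

/-- Step 2. -/
theorem Tangent.P_eq {S P : ℂ × ℂ → ℂ} (h : Tangent S P) : ∀ a ∈ RH, ∀ b ∈ RH, P (a, b) = a * b := by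
  -- first for `a ≠ 1`
  have key : ∀ a ∈ RH, a ≠ 1 → ∀ b ∈ RH, P (a, b) - a * b = 0 := by
    intro a ha ha1
    have hd : DifferentiableOn ℂ (fun b => P (a, b) - a * b) RH := by
      have h3 : DifferentiableOn ℂ (fun b : ℂ => (a, b)) RH :=
        (differentiableOn_const a).prodMk differentiableOn_id
      exact (h.hP.comp h3 (fun w hw => ⟨ha, hw⟩)).sub (differentiableOn_id.const_mul a)
    have han := hd.analyticOnNhd isOpen_RH
    have hev : (fun b => P (a, b) - a * b) =ᶠ[𝓝 1] 0 := by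
      have ha0 : 0 ≤ a.re := le_of_lt ha
      have hn1 : a + 1 ≠ 0 := ne0 ha0
      have hn2 : a - 1 ≠ 0 := sub_ne_zero.2 ha1
      have hcont : Tendsto (fun b : ℂ => (b - 1) * (a + 1) ^ 2 / (a - 1)) (𝓝 1) (𝓝 0) := by
        have : Tendsto (fun b : ℂ => (b - 1) * (a + 1) ^ 2 / (a - 1)) (𝓝 1)
            (𝓝 (((1 : ℂ) - 1) * (a + 1) ^ 2 / (a - 1))) := by
          apply Continuous.tendsto
          fun_prop
        simpa using this
      have h1 : ∀ᶠ b in 𝓝 (1 : ℂ), ‖(b - 1) * (a + 1) ^ 2 / (a - 1)‖ < 1 / 2 := by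
        have := hcont.norm
        rw [norm_zero] at this
        exact this.eventually (gt_mem_nhds (by norm_num))
      filter_upwards [h1] with b hb
      have h2 := h.graph_zero hb a ha
      have h3 : gr ((b - 1) * (a + 1) ^ 2 / (a - 1)) a = b := by
        rw [gr]
        field_simp
        ring
      rw [h3] at h2
      exact h2
    have := han.eqOn_zero_of_preconnected_of_eventuallyEq_zero isPreconnected_RH one_mem_RH hev
    intro b hb
    exact this hb
  intro a ha b hb
  by_cases ha1 : a = 1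
  · by_cases hb1 : b = 1
    · -- both are one: continuity
      subst ha1 hb1
      have hd : ContinuousOn (fun b => P (b, 1) - b * 1) RH := by
        have h3 : DifferentiableOn ℂ (fun b : ℂ => (b, (1 : ℂ))) RH :=
          differentiableOn_id.prodMk (differentiableOn_const 1)
        exact ((h.hP.comp h3 (fun w hw => ⟨hw, one_mem_RH⟩)).sub
          (differentiableOn_id.mul_const 1)).continuousOn
      have hc : ContinuousAt (fun b => P (b, 1) - b * 1) 1 :=
        hd.continuousAt (isOpen_RH.mem_nhds one_mem_RH)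
      have h1 : Tendsto (fun b => P (b, 1) - b * 1) (𝓝[≠] 1) (𝓝 (P (1, 1) - 1 * 1)) :=
        hc.tendsto.mono_left nhdsWithin_le_nhds
      have h2 : Tendsto (fun b : ℂ => P (b, 1) - b * 1) (𝓝[≠] 1) (𝓝 0) := by
        apply tendsto_const_nhds.congr'
        have : ∀ᶠ b in 𝓝[≠] (1 : ℂ), b ∈ RH :=
          nhdsWithin_le_nhds (isOpen_RH.mem_nhds one_mem_RH)
        filter_upwards [this, self_mem_nhdsWithin] with b hb hb1
        exact (key b hb hb1 1 one_mem_RH).symm
      have h3 := tendsto_nhds_unique h1 h2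
      linear_combination h3
    · rw [h.symP a ha b hb]
      have := key b hb hb1 a ha
      linear_combination this
  · have := key a ha ha1 b hb
    linear_combination this

end Pool.Agent.Helper94.Half
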